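import Pool.Agent.H901.Q2.Stm

/-!
Project Q2: the theorem of Colliot-Thélène and Levine for quadratic forms: the existence of a common
nontrivial zero of a system of quadratic forms over an extension of odd degree is equivalent to the
existence of a nontrivial zero of one quadratic form over a larger field.
-/

set_option autoImplicit false

namespace Pool.Agent.H901.Q2

open Finset Polynomial Pool.Agent.H901 Pool.Agent.H901.Q Algebra

/-- for every system of quadratic forms there is one form over a larger field -/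
def S_COV : Prop :=
  ∀ (k : Type) [Field k] [CharZero k] (m s : ℕ) (F : Type) [Field F] [Algebra k F]
    [Algebra.EssFiniteType k F] (Q : ℕ → ℕ → ℕ → F), (∀ j a b, Q j a b = Q j b a) →
    ∃ (E : Type) (_ : Field E) (_ : Algebra k E) (_ : Algebra.EssFiniteType k E) (g : ℕ → ℕ → E),
      (∀ i j, g i j = g j i) ∧ Algebra.trdeg k E = Algebra.trdeg k F + s ∧
      ((∃ z : ℕ → E, (∃ i < m, z i ≠ 0) ∧ gq g m z = 0) ↔ OddPt m (s + 1) Q)

theorem trdeg_ratFunc (k F : Type) [Field k] [Field F] [Algebra k F] :
    Algebra.trdeg k (RatFunc F) = Algebra.trdeg k F + 1 := by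
  have h2 : Algebra.IsAlgebraic (Polynomial F) (RatFunc F) :=
    IsLocalization.isAlgebraic _ (nonZeroDivisors (Polynomial F))
  have h3 := (IsTranscendenceBasis.polynomial Unit F).algebraMap_comp (A := RatFunc F)
  have h1 : Algebra.trdeg F (RatFunc F) = 1 := by
    rw [← h3.cardinalMk_eq_trdeg]
    simp
  rw [← trdeg_add_eq k F (A := RatFunc F), h1]

theorem ess_ratFunc (k F : Type) [Field k] [Field F] [Algebra k F] [Algebra.EssFiniteType k F] :
    Algebra.EssFiniteType k (RatFunc F) := by
  have hess1 : Algebra.EssFiniteType F (RatFunc F) := by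
    have : Algebra.EssFiniteType (Polynomial F) (RatFunc F) :=
      Algebra.EssFiniteType.of_isLocalization (RatFunc F) (nonZeroDivisors (Polynomial F))
    exact Algebra.EssFiniteType.comp F (Polynomial F) (RatFunc F)
  exact Algebra.EssFiniteType.comp k F (RatFunc F)

theorem gq_map {R S : Type*} [CommRing R] [CommRing S] (φ : R →+* S) (g : ℕ → ℕ → R) (m : ℕ)
    (z : ℕ → R) : gq (fun i j => φ (g i j)) m (fun i => φ (z i)) = φ (gq g m z) := by
  unfold gq
  simp only [map_sum, map_mul]

theorem gq_add {R : Type*} [CommRing R] (g h : ℕ → ℕ → R) (m : ℕ) (z : ℕ → R) :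
    gq (fun i j => g i j + h i j) m z = gq g m z + gq h m z := by
  unfold gq
  simp only [add_mul, sum_add_distrib]

theorem gq_smul {R : Type*} [CommRing R] (c : R) (g : ℕ → ℕ → R) (m : ℕ) (z : ℕ → R) :
    gq (fun i j => c * g i j) m z = c * gq g m z := by
  unfold gq
  simp only [mul_sum, mul_assoc]

/-- the first form is replaced by a pencil -/
noncomputable def pen {F : Type} [Field F] (s : ℕ) (Q : ℕ → ℕ → ℕ → F) (j : ℕ) (a b : ℕ) : RatFunc F :=
  if j = 0 then RatFunc.C (Q 0 a b) + RatFunc.X * RatFunc.C (Q (s + 1) a b) else RatFunc.C (Q j a b)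

theorem pen_iff (hL : S_LIFT) (hC : S_CURVE) {F : Type} [Field F] [CharZero F] (m s : ℕ)
    (Q : ℕ → ℕ → ℕ → F) : OddPt m (s + 1) (pen s Q) ↔ OddPt m (s + 2) Q := by
  constructor
  · rintro ⟨L, _, _, hodd, z, hz, h⟩
    have e1 : ∀ j < s, gq (fun a b => algebraMap (RatFunc F) L (RatFunc.C (Q (j + 1) a b))) m z =
        0 := by
      intro j hj
      have := h (j + 1) (by omega)
      simpa [pen] using this
    have e2 : gq (fun a b => algebraMap (RatFunc F) L
        (RatFunc.C (Q 0 a b) + RatFunc.X * RatFunc.C (Q (s + 1) a b))) m z = 0 := by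
      have := h 0 (by omega)
      simpa [pen] using this
    obtain ⟨E, _, _, hE, z', hz', h1, h2, h3⟩ := hC F L m s (fun j => Q (j + 1)) (Q 0) (Q (s + 1))
      hodd ⟨z, hz, e1, e2⟩
    refine ⟨E, inferInstance, inferInstance, hE, z', hz', fun j hj => ?_⟩
    rcases Nat.eq_zero_or_pos j with rfl | hj0
    · exact h2
    · by_cases hjs : j = s + 1
      · subst hjs
        exact h3
      · obtain ⟨j', rfl⟩ : ∃ j', j = j' + 1 := ⟨j - 1, by omega⟩
        exact h1 j' (by omega)
  · rintro ⟨E, _, _, hodd, z, ⟨i, hi, hzi⟩, h⟩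
    obtain ⟨E2, _, _, ψ, hE2, hψ⟩ := hL F (RatFunc F) E hodd
    have hψ' : ∀ x : F, algebraMap (RatFunc F) E2 (RatFunc.C x) = ψ (algebraMap F E x) := by
      intro x
      rw [hψ]
      rfl
    have key : ∀ j < s + 2, gq (fun a b => algebraMap (RatFunc F) E2 (RatFunc.C (Q j a b))) m
        (fun i => ψ (z i)) = 0 := by
      intro j hj
      simp only [hψ']
      rw [gq_map ψ, h j hj, map_zero]
    refine ⟨E2, inferInstance, inferInstance, hE2, fun i => ψ (z i), ⟨i, hi, ?_⟩, fun j hj => ?_⟩
    · exact (map_ne_zero ψ).2 hzi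
    · unfold pen
      split_ifs with h0
      · simp only [map_add, map_mul]
        rw [gq_add, gq_smul, key 0 (by omega), key (s + 1) (by omega), mul_zero, add_zero]
      · exact key j (by omega)

theorem cov (hS : S_SPR) (hL : S_LIFT) (hC : S_CURVE) : S_COV := by
  intro k _ _ m s
  induction s with
  | zero =>
    intro F _ _ _ Q hQ
    have h0 : CharZero F := charZero_of_injective_algebraMap (algebraMap k F).injective
    refine ⟨F, inferInstance, inferInstance, inferInstance, Q 0, hQ 0, by simp, ?_, ?_⟩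
    · rintro ⟨z, hz, h⟩
      refine ⟨F, inferInstance, inferInstance, by simp, z, hz, fun j hj => ?_⟩
      obtain rfl : j = 0 := by omega
      exact h
    · rintro ⟨E, _, _, hodd, z, hz, h⟩
      refine hS F m (Q 0) (hQ 0) ⟨E, inferInstance, inferInstance, hodd, z, hz, fun j hj => ?_⟩
      exact h 0 (by omega)
  | succ s ih =>
    intro F _ _ _ Q hQ
    have h0 : CharZero F := charZero_of_injective_algebraMap (algebraMap k F).injective
    have hess := ess_ratFunc k F
    obtain ⟨E, _, _, _, g, hg, htr, hiff⟩ := ih (RatFunc F) (pen s Q) (by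
      intro j a b
      unfold pen
      rw [hQ 0 a b, hQ (s + 1) a b, hQ j a b])
    refine ⟨E, inferInstance, inferInstance, inferInstance, g, hg, ?_, ?_⟩
    · rw [htr, trdeg_ratFunc, Nat.cast_add, Nat.cast_one, add_assoc, add_comm (1 : Cardinal)]
    · rw [hiff]
      exact pen_iff hL hC m s Q

end Pool.Agent.H901.Q2
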