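import Pool.Agent.H901.Q.Defs

/-!
Project Q2: the definitions of the final statement.
-/

set_option autoImplicit false

namespace Pool.Agent.H901.Q2

open Finset Pool.Agent.H901 Pool.Agent.H901.Q

/-- Let `m ≥ 2` and `2 m ≤ 2 ^ N`. For all hypersurfaces `p = 0` the system `f ((m, N), n, p)` defines a
unirational variety of dimension `n + N + m 2 ^ N + 2 ^ (N + 1) - m (m + 1) / 2`, and it is rational if
and only if it is stably rational, if and only if the quadratic form `∑ x_(ix i j) z_i z_j`,
`i, j < m`, has a nontrivial zero over the function field of `p = 0`. -/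
def ReducesU (ν : ℕ → Qb) (f : (ℕ × ℕ) × ℕ × Poly → Sys) : Prop :=
  ∀ (m N n : ℕ) (p : Poly), 2 ≤ m → 2 * m ≤ 2 ^ N → Hyp2 ν m n p →
    IsVar ν (f ((m, N), n, p)) ∧ Unirational ν (f ((m, N), n, p)) ∧
    HasDim ν (f ((m, N), n, p)) (n + (N + m * 2 ^ N + 2 ^ (N + 1)) - MM m) ∧
    [Rational ν (f ((m, N), n, p)), StablyRational ν (f ((m, N), n, p)), ZeroQ ν m n p].TFAE

/-- The algebraic subset `G 0 = … = G (l - 1) = 0` of the projective space of dimension `r` has a point
over an extension of odd degree of the field `F`. -/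
def OddPoint (F : Type) [Field F] (r l : ℕ) (G : ℕ → MvPolynomial (Fin (r + 1)) F) : Prop :=
  ∃ (E : Type) (_ : Field E) (_ : Algebra F E), Odd (Module.finrank F E) ∧
    ∃ x : Fin (r + 1) → E, x ≠ 0 ∧ ∀ i < l, MvPolynomial.aeval x (G i) = 0

/-- All projective varieties over all finitely generated extension fields `F` of the field of the
algebraic numbers are covered: the variety given by the homogeneous polynomials `G i` of degree `d i`,
`i < l`, has a point over an extension of odd degree of `F` if and only if the form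
`∑ x_(ix i j) z_i z_j`, `i, j < m`, has a nontrivial zero over the function field of `p = 0`, for a
suitable hypersurface `p = 0` of dimension `c + dim F`. Here `m` and `c` depend only on the number and
the degrees of the polynomials and on `r`. -/
def CoversV (ν : ℕ → Qb) : Prop :=
  ∀ (r l : ℕ) (d : ℕ → ℕ), (∀ i < l, 0 < d i) → ∃ m c : ℕ, 2 ≤ m ∧
    ∀ (F : Type) [Field F] [Algebra Qb F] [Algebra.EssFiniteType Qb F]
      (G : ℕ → MvPolynomial (Fin (r + 1)) F), (∀ i < l, (G i).IsHomogeneous (d i)) →
      ∃ (n : ℕ) (p : Poly), Hyp2 ν m n p ∧ (n : Cardinal) = c + Algebra.trdeg Qb F ∧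
        (ZeroQ ν m n p ↔ OddPoint F r l G)

end Pool.Agent.H901.Q2
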