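import Pool.Agent.H901.Q.ASM2
import Pool.Agent.H901.Q2.Defs
import Pool.Agent.H901.Q2.COV

/-!
Project Q2, assembly.
-/

set_option autoImplicit false

namespace Pool.Agent.H901.Q2

open Finset Pool.Agent.H901 Pool.Agent.H901.Q Pool.Agent.H901.Q.Asm Algebra

section Lists

variable {ν : ℕ → Qb} {u u' i : ℕ}

theorem val_inst (hu : ν u = 1) (hu' : ν u' = -1) (τ : ℕ → ℕ) (L : IPoly) :
    val ν (inst u u' τ L) = iev (fun j => MvPolynomial.X (τ j)) L := by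
  have h := aeval_inst (B := MvPolynomial ℕ Qb) hu hu' τ L MvPolynomial.X
  rw [MvPolynomial.aeval_X_left_apply] at h
  exact h

/-- the properties of the lists -/
structure Good (L1 L2 : ℕ → IPoly) : Prop where
  b1 : ∀ i, ∀ t ∈ L1 i, ∀ j ∈ t.2, j < i + 3 + 2 * 2 ^ i
  b2 : ∀ i, ∀ t ∈ L2 i, ∀ j ∈ t.2, j < i + 3 + 2 * 2 ^ i
  v1 : ∀ i (B : Type) [CommRing B] (ξ : ℕ → B), iev ξ (L1 i) = g1 i ξ
  v2 : ∀ i (B : Type) [CommRing B] (ξ : ℕ → B), iev ξ (L2 i) = g2 i ξ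

variable {L1 L2 : ℕ → IPoly}

theorem eqs_fsysU (hL : Good L1 L2) (hu : ν u = 1) (hu' : ν u' = -1) (q : ℕ × Poly) :
    eqs ν (fsysU L1 L2 u u' i q) = eqs ν (fsys i u u' q) := by
  have e1 : val ν (inst u u' (tau i q.1) (L1 i)) = val ν (inst u u' (tau i q.1) (l1 i)) := by
    rw [val_inst hu hu', val_inst hu hu', hL.v1]
    exact ((exists_l1 i).choose_spec.2 _ _).symm
  have e2 : val ν (inst u u' (tau i q.1) (L2 i)) = val ν (inst u u' (tau i q.1) (l2 i)) := by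
    rw [val_inst hu hu', val_inst hu hu', hL.v2]
    exact ((exists_l2 i).choose_spec.2 _ _).symm
  have h : ∀ f : MvPolynomial ℕ Qb, (∃ g ∈ (fsysU L1 L2 u u' i q).2, f = val ν g) ↔
      ∃ g ∈ (fsys i u u' q).2, f = val ν g := by
    intro f
    unfold fsysU fsys
    simp only [List.cons_append, List.nil_append, List.exists_mem_cons_iff, e1, e2]
  unfold eqs
  ext f
  simp only [Set.mem_ofPred_eq]
  rw [h f]
  rfl

theorem fsysU_valid (hL : Good L1 L2) {n : ℕ} {p : Poly} (hn : i ≤ n)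
    (hval : ∀ t ∈ p, ∀ j ∈ t.2, j < n + 1) :
    ∀ f ∈ (fsysU L1 L2 u u' i (n, p)).2, ∀ t ∈ f, ∀ j ∈ t.2,
      j < (fsysU L1 L2 u u' i (n, p)).1 := by
  have hinst : ∀ L : IPoly, (∀ t ∈ L, ∀ j ∈ t.2, j < i + 3 + 2 * 2 ^ i) →
      ∀ t ∈ inst u u' (tau i n) L, ∀ j ∈ t.2, j < n + 6 + 2 * 2 ^ i + 2 * dgb p := by
    intro L hL t ht j hj
    unfold inst at ht
    rw [List.mem_map] at ht
    obtain ⟨t', ht', rfl⟩ := ht
    rw [List.mem_map] at hj
    obtain ⟨l, hl, rfl⟩ := hj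
    have := hL t' ht' l hl
    unfold tau
    split_ifs <;> omega
  intro f hf t ht j hj
  show j < n + 6 + 2 * 2 ^ i + 2 * dgb p
  have hold := fsys_valid (i := i) (u := u) (u' := u') hn hval
  unfold fsysU at hf
  unfold fsys at hold
  simp only [List.cons_append, List.nil_append, List.mem_cons] at hf hold
  rcases hf with rfl | rfl | hf
  · exact hinst _ (hL.b1 i) t ht j hj
  · exact hinst _ (hL.b2 i) t ht j hj
  · exact hold f (Or.inr (Or.inr hf)) t ht j hj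

end Lists

section Red

variable {ν : ℕ → Qb} {u u' : ℕ} {L1 L2 : ℕ → IPoly}

/-- the reduction, uniformly in `m`, `N` -/
def fu (L1 L2 : ℕ → IPoly) (u u' : ℕ) (x : (ℕ × ℕ) × ℕ × Poly) : Sys :=
  fsysU L1 L2 u u' x.1.2 (x.1.2 + x.1.1 * 2 ^ x.1.2 + (x.2.1 - MM x.1.1),
    subst x.1.2 x.1.1 x.2.2)

theorem transfer {S S' : Sys} (h : eqs ν S = eqs ν S')
    (hv : ∀ f ∈ S.2, ∀ t ∈ f, ∀ j ∈ t.2, j < S.1) {d : ℕ} {P : Prop}
    (h' : IsVar ν S' ∧ Unirational ν S' ∧ HasDim ν S' d ∧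
      [Rational ν S', StablyRational ν S', P].TFAE) :
    IsVar ν S ∧ Unirational ν S ∧ HasDim ν S d ∧ [Rational ν S, StablyRational ν S, P].TFAE := by
  have hI : Ideal.span (eqs ν S') = Ideal.span (eqs ν S) := by rw [h]
  let e : CR ν S' ≃ₐ[Qb] CR ν S := Ideal.quotientEquivAlgOfEq Qb hI
  obtain ⟨⟨-, h1⟩, h2, h3, h4⟩ := h'
  have hdom : IsDomain (CR ν S) := e.symm.toMulEquiv.isDomain
  refine ⟨⟨hv, hdom⟩, (uniA_iff e).1 h2, ?_, ?_⟩
  · unfold HasDim at h3 ⊢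
    rw [← h3]
    exact (trdeg_iff e).symm
  · have e1 : Rational ν S ↔ Rational ν S' := (ratA_iff e).symm
    have e2 : StablyRational ν S ↔ StablyRational ν S' := (stabA_iff e).symm
    rw [e1, e2]
    exact h4

theorem redU (hL : Good L1 L2) (hI : S_IRR) (hE : S_EQV) (hu : ν u = 1) (hu' : ν u' = -1) :
    ReducesU ν (fu L1 L2 u u') := by
  intro m N n p hm hN hp
  have h := red hI hE hm hN hu hu' hp
  refine transfer ?_ ?_ h
  · exact eqs_fsysU hL hu hu' _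
  · refine fsysU_valid hL (by omega) ?_
    obtain ⟨hMn, hv, -⟩ := hp
    obtain ⟨t, rfl⟩ : ∃ t, n = MM m + t := ⟨n - MM m, by omega⟩
    rw [Nat.add_sub_cancel_left]
    exact (code N m).2.2 (t + 1) p (hv.1 p (by simp))

theorem fu_prim (h1 : Primrec L1) (h2 : Primrec L2) (hF : S_FSU) (hS : S_SUBU) :
    Primrec (fu L1 L2 u u') :=
  (hF L1 L2 u u' h1 h2).comp (Primrec.pair (Primrec.snd.comp Primrec.fst) hS)

end Red

theorem coversV {ν : ℕ → Qb} (hν : Function.Surjective ν) (hV : S_VER) (hC : S_COV)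
    (hM : S_MOD) : CoversV ν := by
  intro r l d hd
  obtain ⟨m, s, hm, h⟩ := hV r l d hd
  refine ⟨m, MM m + s, hm, ?_⟩
  intro F _ _ _ G hG
  have h0 : CharZero F := charZero_of_injective_algebraMap (algebraMap Qb F).injective
  obtain ⟨Q, hQ, hiff⟩ := h F G hG
  obtain ⟨E, _, _, _, g, hg, htr, hiff2⟩ := hC Qb m s F Q hQ
  obtain ⟨t, ht, P, hP, hPm, hPd, hiff3⟩ := hM Qb E m g hm hg
  obtain ⟨p, hp, hz⟩ := exists_hyp2 hν (show MM m ≤ MM m + t by omega) hP hPm hPd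
  refine ⟨MM m + t, p, hp, ?_, ?_⟩
  · rw [Nat.cast_add, ht, htr, Nat.cast_add, add_assoc, add_comm (s : Cardinal)]
  · rw [hz, hiff3, hiff2]
    constructor
    · rintro ⟨K, _, _, hodd, h1⟩
      obtain ⟨x, hx, h2⟩ := (hiff K (algebraMap F K)).2 h1
      exact ⟨K, inferInstance, inferInstance, hodd, x, hx, h2⟩
    · rintro ⟨K, _, _, hodd, x, hx, h2⟩
      exact ⟨K, inferInstance, inferInstance, hodd,
        (hiff K (algebraMap F K)).1 ⟨x, hx, h2⟩⟩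

end Pool.Agent.H901.Q2
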