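import Pool.Agent.H901.Q2.Stm

set_option autoImplicit false

open Finset Polynomial Pool.Agent.H901 Pool.Agent.H901.Q

namespace Pool.Agent.H901.Q2.CURVEAux

section poly

variable {K : Type} [Field K]

theorem ntd_reverse {p : K[X]} (hp : p ≠ 0) : p.reverse.natTrailingDegree = 0 := by
  rw [natTrailingDegree_eq_zero]
  right
  rw [coeff_zero_reverse]
  exact leadingCoeff_ne_zero.2 hp

theorem ntd_X_pow (n : ℕ) : ((X : K[X]) ^ n).natTrailingDegree = n := by
  induction n with
  | zero => simp
  | succ n ih =>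
    rw [pow_succ, natTrailingDegree_mul (pow_ne_zero _ X_ne_zero) X_ne_zero, ih,
      natTrailingDegree_X]

/-- the substitution `X ↦ 1 / X` on polynomials -/
theorem aev (p : K[X]) : aeval (RatFunc.X⁻¹ : RatFunc K) p =
    algebraMap K[X] (RatFunc K) p.reverse * RatFunc.X⁻¹ ^ p.natDegree := by
  have hX : (RatFunc.X : RatFunc K) ≠ 0 := RatFunc.X_ne_zero
  let _ : Invertible (RatFunc.X⁻¹ : RatFunc K) := invertibleOfNonzero (inv_ne_zero hX)
  have h := eval₂_reverse_mul_pow (algebraMap K (RatFunc K)) (RatFunc.X⁻¹ : RatFunc K) p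
  rw [invOf_eq_inv, inv_inv] at h
  rw [aeval_def, ← h, ← RatFunc.aeval_X_left_eq_algebraMap, aeval_def]

theorem aev_ne {p : K[X]} (hp : p ≠ 0) : aeval (RatFunc.X⁻¹ : RatFunc K) p ≠ 0 := by
  rw [aev]
  refine mul_ne_zero ?_ (pow_ne_zero _ (inv_ne_zero RatFunc.X_ne_zero))
  rw [Ne, map_eq_zero_iff _ (IsFractionRing.injective K[X] (RatFunc K)), reverse_eq_zero]
  exact hp

/-- the substitution `X ↦ 1 / X` -/
noncomputable def tauH (K : Type) [Field K] : RatFunc K →ₐ[K] RatFunc K :=
  RatFunc.liftAlgHom (aeval (RatFunc.X⁻¹ : RatFunc K)) (by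
    intro p hp
    rw [Submonoid.mem_comap]
    exact mem_nonZeroDivisors_of_ne_zero (aev_ne (nonZeroDivisors.ne_zero hp)))

theorem tauH_div (p q : K[X]) : tauH K (algebraMap K[X] (RatFunc K) p /
    algebraMap K[X] (RatFunc K) q) =
    aeval (RatFunc.X⁻¹ : RatFunc K) p / aeval (RatFunc.X⁻¹ : RatFunc K) q :=
  RatFunc.liftAlgHom_apply_div _ _ _ _

theorem tauH_poly (p : K[X]) : tauH K (algebraMap K[X] (RatFunc K) p) =
    aeval (RatFunc.X⁻¹ : RatFunc K) p := by
  have := tauH_div p 1
  rwa [map_one, map_one, div_one, div_one] at this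

theorem tauH_X : tauH K RatFunc.X = RatFunc.X⁻¹ := by
  have h := tauH_poly (K := K) X
  rwa [RatFunc.algebraMap_X, aeval_X] at h

theorem tauH_tauH (x : RatFunc K) : tauH K (tauH K x) = x := by
  have h1 : ∀ p : K[X], tauH K (tauH K (algebraMap K[X] (RatFunc K) p)) =
      algebraMap K[X] (RatFunc K) p := by
    intro p
    rw [tauH_poly, ← Polynomial.aeval_algHom_apply, map_inv₀, tauH_X, inv_inv,
      RatFunc.aeval_X_left_eq_algebraMap]
  rw [← RatFunc.num_div_denom x, map_div₀, map_div₀, h1, h1]

/-- the substitution `X ↦ 1 / X` as an automorphism -/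
noncomputable def tauE (K : Type) [Field K] : RatFunc K ≃+* RatFunc K :=
  RingEquiv.ofRingHom (tauH K).toRingHom (tauH K).toRingHom
    (RingHom.ext tauH_tauH) (RingHom.ext tauH_tauH)

theorem tauE_apply (x : RatFunc K) : tauE K x = tauH K x := rfl

theorem tauE_symm_apply (x : RatFunc K) : (tauE K).symm x = tauH K x := rfl

/-- the parity of the weight of a rational function -/
theorem parity {w : K[X] → ℕ} (hw : ∀ f g : K[X], f ≠ 0 → g ≠ 0 → w (f * g) = w f + w g)
    {a b : K[X]} (ha : a ≠ 0) (hb : b ≠ 0) {r : RatFunc K}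
    (hr : r = algebraMap K[X] (RatFunc K) a / algebraMap K[X] (RatFunc K) b) :
    Odd (w r.num + w r.denom) ↔ Odd (w a + w b) := by
  have hinj := IsFractionRing.injective K[X] (RatFunc K)
  have hb' : algebraMap K[X] (RatFunc K) b ≠ 0 := by
    rw [Ne, map_eq_zero_iff _ hinj]; exact hb
  have ha' : algebraMap K[X] (RatFunc K) a ≠ 0 := by
    rw [Ne, map_eq_zero_iff _ hinj]; exact ha
  have hd := r.denom_ne_zero
  have hd' : algebraMap K[X] (RatFunc K) r.denom ≠ 0 := by
    rw [Ne, map_eq_zero_iff _ hinj]; exact hd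
  have hr0 : r ≠ 0 := by rw [hr]; exact div_ne_zero ha' hb'
  have hn := RatFunc.num_ne_zero hr0
  have h1 : r.num * b = a * r.denom := by
    apply hinj
    rw [map_mul, map_mul, ← div_eq_div_iff hd' hb', RatFunc.num_div_denom, hr]
  have h2 := hw _ _ hn hb
  rw [h1, hw _ _ ha hd] at h2
  rw [Nat.odd_iff, Nat.odd_iff]
  omega

end poly

/-! ### Places and quadratic forms -/

theorem map_gq {R S : Type} [CommRing R] [CommRing S] (f : R →+* S) (g : ℕ → ℕ → R) (m : ℕ)
    (z : ℕ → R) : f (gq g m z) = gq (fun i j => f (g i j)) m (fun i => f (z i)) := by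
  unfold gq
  simp only [map_sum, map_mul]

theorem gq_congr {R : Type} [CommRing R] (g : ℕ → ℕ → R) (m : ℕ) (z z' : ℕ → R)
    (h : ∀ i < m, z i = z' i) : gq g m z = gq g m z' := by
  unfold gq
  refine Finset.sum_congr rfl fun i hi => Finset.sum_congr rfl fun j hj => ?_
  rw [h i (Finset.mem_range.1 hi), h j (Finset.mem_range.1 hj)]

theorem gq_smul {R : Type} [CommRing R] (g : ℕ → ℕ → R) (m : ℕ) (z : ℕ → R) (c : R) :
    gq g m (fun i => c * z i) = c ^ 2 * gq g m z := by
  unfold gq
  rw [Finset.mul_sum]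
  refine Finset.sum_congr rfl fun i _ => ?_
  rw [Finset.mul_sum]
  refine Finset.sum_congr rfl fun j _ => ?_
  ring

theorem gq_add {R : Type} [CommRing R] (g g' : ℕ → ℕ → R) (x : R) (m : ℕ) (z : ℕ → R) :
    gq (fun i j => g i j + x * g' i j) m z = gq g m z + x * gq g' m z := by
  unfold gq
  rw [Finset.mul_sum, ← Finset.sum_add_distrib]
  refine Finset.sum_congr rfl fun i _ => ?_
  rw [Finset.mul_sum, ← Finset.sum_add_distrib]
  refine Finset.sum_congr rfl fun j _ => ?_
  ring

/-- the point given by a place -/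
theorem point {K L E : Type} [Field K] [Field L] [Field E] [Algebra K L] [Algebra K E]
    (O : Subalgebra K L) (φ : O →ₐ[K] E) (c : L) (m : ℕ) (z : ℕ → L)
    (h1 : ∀ i < m, c * z i ∈ O) (h2 : ∃ i < m, ∃ h : c * z i ∈ O, φ ⟨c * z i, h⟩ ≠ 0) :
    ∃ z' : ℕ → E, (∃ i < m, z' i ≠ 0) ∧ ∀ g : ℕ → ℕ → K,
      ∃ h : c ^ 2 * gq (fun i j => algebraMap K L (g i j)) m z ∈ O,
        gq (fun i j => algebraMap K E (g i j)) m z' =
          φ ⟨c ^ 2 * gq (fun i j => algebraMap K L (g i j)) m z, h⟩ := by
  classical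
  let y : ℕ → O := fun i => if h : i < m then ⟨c * z i, h1 i h⟩ else 0
  have hy : ∀ i < m, (y i : L) = c * z i := by
    intro i hi
    simp only [y]
    rw [dif_pos hi]
  refine ⟨fun i => φ (y i), ?_, ?_⟩
  · obtain ⟨i, hi, h, hne⟩ := h2
    refine ⟨i, hi, ?_⟩
    simp only [y]
    rw [dif_pos hi]
    exact hne
  · intro g
    have e1 : ((gq (fun i j => algebraMap K O (g i j)) m y : O) : L) =
        c ^ 2 * gq (fun i j => algebraMap K L (g i j)) m z := by
      have := map_gq (O.val : O →+* L) (fun i j => algebraMap K O (g i j)) m y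
      refine Eq.trans this ?_
      rw [← gq_smul]
      refine gq_congr _ _ _ _ fun i hi => hy i hi
    have hmem : c ^ 2 * gq (fun i j => algebraMap K L (g i j)) m z ∈ O := by
      rw [← e1]; exact Subtype.coe_prop _
    refine ⟨hmem, ?_⟩
    have e2 : (⟨c ^ 2 * gq (fun i j => algebraMap K L (g i j)) m z, hmem⟩ : O) =
        gq (fun i j => algebraMap K O (g i j)) m y := Subtype.ext e1.symm
    rw [e2]
    have := map_gq (φ : O →+* E) (fun i j => algebraMap K O (g i j)) m y
    refine Eq.trans ?_ this.symm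
    congr 1
    funext i j
    exact (φ.commutes (g i j)).symm

section values

variable {K L E : Type} [Field K] [Field L] [Field E] [Algebra K L] [Algebra K E]
    {O : Subalgebra K L} {φ : O →ₐ[K] E} {c : L} {m : ℕ} {z : ℕ → L} {z' : ℕ → E}
    (hg : ∀ g : ℕ → ℕ → K, ∃ h : c ^ 2 * gq (fun i j => algebraMap K L (g i j)) m z ∈ O,
      gq (fun i j => algebraMap K E (g i j)) m z' =
        φ ⟨c ^ 2 * gq (fun i j => algebraMap K L (g i j)) m z, h⟩)

include hg

theorem zero_of_zero {g : ℕ → ℕ → K} (h0 : gq (fun i j => algebraMap K L (g i j)) m z = 0) :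
    gq (fun i j => algebraMap K E (g i j)) m z' = 0 := by
  obtain ⟨h, e⟩ := hg g
  have e2 : (⟨c ^ 2 * gq (fun i j => algebraMap K L (g i j)) m z, h⟩ : O) = 0 :=
    Subtype.ext (by
      show c ^ 2 * gq (fun i j => algebraMap K L (g i j)) m z = 0
      rw [h0, mul_zero])
  rw [e, e2, map_zero]

theorem zero_of_mul {g1 g2 : ℕ → ℕ → K} {x : L} (hx : x ∈ O)
    (h1 : ∃ h : c ^ 2 * gq (fun i j => algebraMap K L (g1 i j)) m z ∈ O,
      φ ⟨c ^ 2 * gq (fun i j => algebraMap K L (g1 i j)) m z, h⟩ = 0)
    (h12 : gq (fun i j => algebraMap K L (g2 i j)) m z =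
      x * gq (fun i j => algebraMap K L (g1 i j)) m z) :
    gq (fun i j => algebraMap K E (g2 i j)) m z' = 0 := by
  obtain ⟨h, e⟩ := hg g2
  obtain ⟨h', e'⟩ := h1
  have e2 : (⟨c ^ 2 * gq (fun i j => algebraMap K L (g2 i j)) m z, h⟩ : O) =
      ⟨x, hx⟩ * ⟨c ^ 2 * gq (fun i j => algebraMap K L (g1 i j)) m z, h'⟩ :=
    Subtype.ext (by
      show c ^ 2 * gq (fun i j => algebraMap K L (g2 i j)) m z =
        x * (c ^ 2 * gq (fun i j => algebraMap K L (g1 i j)) m z)
      rw [h12]; ring)
  rw [e, e2, map_mul, e', mul_zero]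

end values

end Pool.Agent.H901.Q2.CURVEAux

namespace Pool.Agent.H901.Q2

open CURVEAux

theorem curve (hP : S_PLACE) : S_CURVE := by
  rintro K L _ _ _ algXL m s Q A B hodd ⟨z, ⟨i0, hi0, hz0⟩, hQ, hAB⟩
  let algK : Algebra K L :=
    ((algebraMap (RatFunc K) L).comp (algebraMap K (RatFunc K))).toAlgebra
  have tow : IsScalarTower K (RatFunc K) L := IsScalarTower.of_algebraMap_eq fun _ => rfl
  have fin : FiniteDimensional (RatFunc K) L := Module.finite_of_finrank_pos hodd.pos
  obtain ⟨x, hxdef⟩ : ∃ x, x = algebraMap (RatFunc K) L RatFunc.X := ⟨_, rfl⟩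
  have hx : x ≠ 0 := by
    rw [hxdef, Ne, map_eq_zero_iff _ (algebraMap (RatFunc K) L).injective]
    exact RatFunc.X_ne_zero
  have hC : ∀ k : K, algebraMap (RatFunc K) L (RatFunc.C k) = algebraMap K L k := by
    intro k
    rw [← RatFunc.algebraMap_eq_C]
    rfl
  simp only [hC] at hQ
  have hAB' : gq (fun a b => algebraMap K L (A a b)) m z +
      x * gq (fun a b => algebraMap K L (B a b)) m z = 0 := by
    rw [← gq_add, ← hAB]
    congr 1
    funext a b
    rw [map_add, map_mul, hC, hC, hxdef]
  have hinj := IsFractionRing.injective K[X] (RatFunc K)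
  have hnd : ∀ f g : K[X], f ≠ 0 → g ≠ 0 → natDegree (f * g) = natDegree f + natDegree g :=
    fun f g hf hg => natDegree_mul hf hg
  by_cases hB0 : gq (fun a b => algebraMap K L (B a b)) m z = 0
  · -- case 1
    have hA0 : gq (fun a b => algebraMap K L (A a b)) m z = 0 := by
      rw [hB0, mul_zero, add_zero] at hAB'
      exact hAB'
    let zz : ℕ → L := fun i => if i < m then z i else x * z (i - m)
    let g : ℕ → ℕ → K := fun i j => if i = i0 ∧ j = m + i0 then 1 else 0
    have hzz1 : ∀ i < m, zz i = z i := fun i hi => if_pos hi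
    have hzz2 : ∀ i, zz (m + i) = x * z i := by
      intro i
      show (if m + i < m then z (m + i) else x * z (m + i - m)) = _
      rw [if_neg (by omega), Nat.add_sub_cancel_left]
    have hgq : gq (fun i j => algebraMap K L (g i j)) (2 * m) zz = x * z i0 ^ 2 := by
      unfold gq
      rw [Finset.sum_eq_single i0, Finset.sum_eq_single (m + i0)]
      · show algebraMap K L (if i0 = i0 ∧ m + i0 = m + i0 then 1 else 0) * _ = _
        rw [if_pos ⟨rfl, rfl⟩, map_one, one_mul, hzz1 i0 hi0, hzz2]
        ring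
      · intro j _ hj
        show algebraMap K L (if i0 = i0 ∧ j = m + i0 then 1 else 0) * _ = _
        rw [if_neg (fun h => hj h.2), map_zero, zero_mul]
      · intro h
        exact absurd (Finset.mem_range.2 (by omega)) h
      · intro i _ hi
        refine Finset.sum_eq_zero fun j _ => ?_
        show algebraMap K L (if i = i0 ∧ j = m + i0 then 1 else 0) * _ = _
        rw [if_neg (fun h => hi h.1), map_zero, zero_mul]
      · intro h
        exact absurd (Finset.mem_range.2 (by omega)) h
    obtain ⟨N, hN⟩ : ∃ N, N = Algebra.norm (RatFunc K) (z i0) := ⟨_, rfl⟩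
    have hN0 : N ≠ 0 := by
      rw [hN]; exact Algebra.norm_ne_zero_iff.2 hz0
    have hpar : Odd (natDegree (Algebra.norm (RatFunc K)
        (gq (fun i j => algebraMap K L (g i j)) (2 * m) zz)).num +
        natDegree (Algebra.norm (RatFunc K)
        (gq (fun i j => algebraMap K L (g i j)) (2 * m) zz)).denom) := by
      rw [parity (w := natDegree) hnd
        (a := X ^ (Module.finrank (RatFunc K) L) * N.num ^ 2) (b := N.denom ^ 2)
        (mul_ne_zero (pow_ne_zero _ X_ne_zero) (pow_ne_zero _ (RatFunc.num_ne_zero hN0)))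
        (pow_ne_zero _ N.denom_ne_zero)]
      · rw [natDegree_mul (pow_ne_zero _ X_ne_zero) (pow_ne_zero _ (RatFunc.num_ne_zero hN0)),
          natDegree_X_pow, natDegree_pow, natDegree_pow]
        rw [Nat.odd_iff] at hodd ⊢
        omega
      · rw [hgq, map_mul, map_pow, hxdef, Algebra.norm_algebraMap, ← hN, map_mul, map_pow, map_pow,
          map_pow, RatFunc.algebraMap_X, mul_div_assoc, ← div_pow, RatFunc.num_div_denom]
    obtain ⟨E, _, _, O, φ, c, hE, hxO, hmem, ⟨i, hi, hci, hne⟩, -⟩ :=
      hP K L natDegree hnd (fun p _ h => h) (2 * m) zz g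
        (by rw [hgq]; exact mul_ne_zero hx (pow_ne_zero _ hz0)) hpar
    rw [← hxdef] at hxO
    have hm1 : ∀ i < m, c * z i ∈ O := by
      intro i hi
      have := hmem i (by omega)
      rwa [hzz1 i hi] at this
    have hm2 : ∃ i < m, ∃ h : c * z i ∈ O, φ ⟨c * z i, h⟩ ≠ 0 := by
      by_cases him : i < m
      · refine ⟨i, him, hm1 i him, ?_⟩
        have e : (⟨c * zz i, hci⟩ : O) = ⟨c * z i, hm1 i him⟩ :=
          Subtype.ext (by show c * zz i = c * z i; rw [hzz1 i him])
        rwa [e] at hne
      · obtain ⟨k, rfl⟩ : ∃ k, i = m + k := ⟨i - m, by omega⟩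
        have hk : k < m := by omega
        refine ⟨k, hk, hm1 k hk, ?_⟩
        intro h0
        apply hne
        have e : (⟨c * zz (m + k), hci⟩ : O) = ⟨x, hxO⟩ * ⟨c * z k, hm1 k hk⟩ :=
          Subtype.ext (by
            show c * zz (m + k) = x * (c * z k)
            rw [hzz2]; ring)
        rw [e, map_mul, h0, mul_zero]
    obtain ⟨z', hz', hg⟩ := point O φ c m z hm1 hm2
    exact ⟨E, _, _, hE, z', hz', fun j hj => zero_of_zero hg (hQ j hj), zero_of_zero hg hA0,
      zero_of_zero hg hB0⟩
  · have hA : gq (fun a b => algebraMap K L (A a b)) m z =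
        (-x) * gq (fun a b => algebraMap K L (B a b)) m z := by linear_combination hAB'
    have hB : gq (fun a b => algebraMap K L (B a b)) m z =
        (-x⁻¹) * gq (fun a b => algebraMap K L (A a b)) m z := by
      rw [hA]
      field_simp
    by_cases hpar : Odd (natDegree (Algebra.norm (RatFunc K)
        (gq (fun i j => algebraMap K L (B i j)) m z)).num +
        natDegree (Algebra.norm (RatFunc K)
        (gq (fun i j => algebraMap K L (B i j)) m z)).denom)
    · -- case 2
      obtain ⟨E, _, _, O, φ, c, hE, hxO, hmem, hne, hf⟩ :=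
        hP K L natDegree hnd (fun p _ h => h) m z B hB0 hpar
      rw [← hxdef] at hxO
      obtain ⟨z', hz', hg⟩ := point O φ c m z hmem hne
      refine ⟨E, _, _, hE, z', hz', fun j hj => zero_of_zero hg (hQ j hj), ?_, ?_⟩
      · exact zero_of_mul hg (neg_mem hxO) hf hA
      · exact zero_of_mul hg (one_mem O) hf (by rw [one_mul])
    · -- case 3
      obtain ⟨d, hd⟩ : ∃ d, d = Module.finrank (RatFunc K) L := ⟨_, rfl⟩
      rw [← hd] at hodd
      obtain ⟨N, hN⟩ : ∃ N, N = Algebra.norm (RatFunc K)
          (gq (fun i j => algebraMap K L (B i j)) m z) := ⟨_, rfl⟩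
      have hN0 : N ≠ 0 := by
        rw [hN]; exact Algebra.norm_ne_zero_iff.2 hB0
      have hA0 : gq (fun a b => algebraMap K L (A a b)) m z ≠ 0 := by
        rw [hA]; exact mul_ne_zero (neg_ne_zero.2 hx) hB0
      have hNA : Algebra.norm (RatFunc K) (gq (fun i j => algebraMap K L (A i j)) m z) =
          (-RatFunc.X) ^ d * N := by
        rw [hA, map_mul, ← hN, hxdef, ← map_neg, Algebra.norm_algebraMap, hd]
      let algN : Algebra (RatFunc K) L :=
        ((algebraMap (RatFunc K) L).comp (tauE K : RatFunc K →+* RatFunc K)).toAlgebra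
      have halgN : ∀ r : RatFunc K, @algebraMap (RatFunc K) L _ _ algN r =
          @algebraMap (RatFunc K) L _ _ algXL (tauH K r) := fun _ => rfl
      have towN : @IsScalarTower K (RatFunc K) L _ algN.toSMul algK.toSMul :=
        @IsScalarTower.of_algebraMap_eq K (RatFunc K) L _ _ _ _ algN algK (fun k => by
          rw [halgN, AlgHom.commutes]
          rfl)
      have finN : @Module.Finite (RatFunc K) L _ _ algN.toModule :=
        @Module.Finite.of_equiv_equiv (RatFunc K) L (RatFunc K) L _ _ _ _ algXL algN (tauE K).symm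
          (RingEquiv.refl L) (by
            refine RingHom.ext fun r => ?_
            show @algebraMap (RatFunc K) L _ _ algXL (tauH K (tauH K r)) = _
            rw [tauH_tauH]
            rfl) fin
      have hnorm : ∀ y : L, @Algebra.norm (RatFunc K) L _ _ algN y =
          tauH K (@Algebra.norm (RatFunc K) L _ _ algXL y) := fun y =>
        @Algebra.norm_eq_of_equiv_equiv (RatFunc K) L (RatFunc K) L _ _ _ _ algN algXL (tauE K)
          (RingEquiv.refl L) (RingHom.ext fun r => rfl) y
      have hw1 : ∀ f g : K[X], f ≠ 0 → g ≠ 0 →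
          natTrailingDegree (f * g) = natTrailingDegree f + natTrailingDegree g :=
        fun f g hf hg => natTrailingDegree_mul hf hg
      have hw2 : ∀ p : K[X], Irreducible p → Odd (natTrailingDegree p) → Odd p.natDegree := by
        intro p hp h
        have h1 : p.coeff 0 = 0 := by
          by_contra h2
          rw [natTrailingDegree_eq_zero.2 (Or.inr h2)] at h
          exact absurd h (by decide)
        obtain ⟨q, hq⟩ := X_dvd_iff.2 h1
        have h3 : IsUnit q := (hp.isUnit_or_isUnit hq).resolve_left not_isUnit_X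
        rw [hq, natDegree_mul X_ne_zero h3.ne_zero, natDegree_X, natDegree_eq_zero_of_isUnit h3]
        decide
      have hparN : Odd (natTrailingDegree (@Algebra.norm (RatFunc K) L _ _ algN
          (gq (fun i j => algebraMap K L (A i j)) m z)).num +
          natTrailingDegree (@Algebra.norm (RatFunc K) L _ _ algN
          (gq (fun i j => algebraMap K L (A i j)) m z)).denom) := by
        have hnum := RatFunc.num_ne_zero hN0
        have hden := N.denom_ne_zero
        have hX := RatFunc.X_ne_zero (K := K)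
        have ha : ((-1 : K[X]) ^ d *
            (X ^ N.denom.natDegree * N.num.reverse)) ≠ 0 :=
          mul_ne_zero (pow_ne_zero _ (neg_ne_zero.2 one_ne_zero))
            (mul_ne_zero (pow_ne_zero _ X_ne_zero) (mt reverse_eq_zero.1 hnum))
        have hb : ((X : K[X]) ^ (d + N.num.natDegree) *
            N.denom.reverse) ≠ 0 :=
          mul_ne_zero (pow_ne_zero _ X_ne_zero) (mt reverse_eq_zero.1 hden)
        rw [parity (w := natTrailingDegree) hw1 ha hb]
        · have h1 : natTrailingDegree ((-1 : K[X]) ^ d) = 0 := by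
            rw [natTrailingDegree_eq_zero]
            right
            have : ((-1 : K[X]) ^ d) =
              C ((-1 : K) ^ d) := by
              rw [map_pow, map_neg, map_one]
            rw [this, coeff_C_zero]
            exact pow_ne_zero _ (neg_ne_zero.2 one_ne_zero)
          rw [hw1 _ _ (left_ne_zero_of_mul ha) (right_ne_zero_of_mul ha),
            hw1 _ _ (pow_ne_zero _ X_ne_zero) (mt reverse_eq_zero.1 hnum),
            hw1 _ _ (left_ne_zero_of_mul hb) (right_ne_zero_of_mul hb), h1, ntd_X_pow, ntd_X_pow,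
            ntd_reverse hnum, ntd_reverse hden]
          rw [← hN, Nat.odd_iff] at hpar
          rw [Nat.odd_iff] at hodd ⊢
          omega
        · rw [hnorm, hNA, map_mul, map_pow, map_neg, tauH_X]
          rw [← RatFunc.num_div_denom N, tauH_div, aev, aev, RatFunc.num_div_denom]
          have e1 : algebraMap K[X] (RatFunc K) N.denom.reverse ≠ 0 := by
            rw [Ne, map_eq_zero_iff _ hinj]; exact mt reverse_eq_zero.1 hden
          simp only [map_mul, map_pow, map_neg, map_one, RatFunc.algebraMap_X]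
          rw [neg_pow, pow_add, inv_pow, inv_pow, inv_pow]
          field_simp
      obtain ⟨E, _, _, O, φ, c, hE, hxO, hmem, hne, hf⟩ :=
        @hP K L _ _ _ algK algN towN finN natTrailingDegree hw1 hw2 m z A hA0 hparN
      have hxO' : x⁻¹ ∈ O := by
        rw [halgN, tauH_X, map_inv₀, ← hxdef] at hxO
        exact hxO
      obtain ⟨z', hz', hg⟩ := point O φ c m z hmem hne
      refine ⟨E, _, _, hE, z', hz', fun j hj => zero_of_zero hg (hQ j hj), ?_, ?_⟩
      · exact zero_of_mul hg (one_mem O) hf (by rw [one_mul])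
      · exact zero_of_mul hg (neg_mem hxO') hf hB

end Pool.Agent.H901.Q2
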