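import Pool.Agent.H901.Q2.Stm

/-!
# Project Q2 part FSU (helper122 for helper901): the system is primitive recursive, uniformly in `i`
-/

set_option autoImplicit false

namespace Pool.Agent.H901.Q2.FSUAux

open Pool.Agent.H901 Pool.Agent.H901.Q2

/-- powers of two -/
theorem two_pow_prim : Primrec (fun i : ℕ => 2 ^ i) := by
  have h : Primrec (fun i : ℕ => Nat.rec (motive := fun _ => ℕ) 1 (fun _ y => 2 * y) i) :=
    Primrec.nat_rec₁ (f := fun _ y => 2 * y) 1
      (Primrec.nat_mul.comp (Primrec.const 2) Primrec.snd)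
  refine h.of_eq fun i => ?_
  induction i with
  | zero => rfl
  | succ i ih =>
    rw [pow_succ, ← ih]
    exact Nat.mul_comm _ _

/-- `2 * 2 ^ f` -/
theorem tp {α : Type*} [Primcodable α] {f : α → ℕ} (hf : Primrec f) :
    Primrec (fun x => 2 * 2 ^ f x) :=
  Primrec.nat_mul.comp (Primrec.const 2) (two_pow_prim.comp hf)

theorem ad {α : Type*} [Primcodable α] {f g : α → ℕ} (hf : Primrec f) (hg : Primrec g) :
    Primrec (fun x => f x + g x) := Primrec.nat_add.comp hf hg

theorem tau_primU {α : Type*} [Primcodable α] {f g h : α → ℕ} (hf : Primrec f) (hg : Primrec g)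
    (hh : Primrec h) : Primrec (fun x => tau (f x) (g x) (h x)) := by
  unfold tau
  exact Primrec.ite (Primrec.nat_lt.comp hh hf) hh
    (Primrec.nat_add.comp (add_prim hg 1) (Primrec.nat_sub.comp hh hf))

theorem inst_primU {α : Type*} [Primcodable α] (u u' : ℕ) {f g : α → ℕ} {L : α → IPoly}
    (hf : Primrec f) (hg : Primrec g) (hL : Primrec L) :
    Primrec (fun x => inst u u' (tau (f x) (g x)) (L x)) := by
  unfold inst
  refine Primrec.list_map hL ?_
  refine Primrec.pair ?_ ?_
  · exact Primrec.cond (Primrec.fst.comp Primrec.snd) (Primrec.const u) (Primrec.const u') |>.of_eq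
      (fun x => by cases h : x.2.1 <;> simp)
  · exact Primrec.list_map (Primrec.snd.comp Primrec.snd)
      (tau_primU (hf.comp (Primrec.fst.comp Primrec.fst)) (hg.comp (Primrec.fst.comp Primrec.fst))
        Primrec.snd)

theorem yeq_primU (u' s : ℕ) : Primrec (fun x : ℕ × ℕ × Poly => yeq x.1 u' x.2.1 s x.2.2) := by
  unfold yeq
  refine Primrec.list_cons.comp ?_ ?_
  · refine Primrec.pair (Primrec.const u') ?_
    refine sing_prim ?_
    exact add_prim (ad (add_prim (Primrec.fst.comp Primrec.snd) 2) (tp Primrec.fst)) s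
  · refine Primrec.list_map (Primrec.snd.comp Primrec.snd) ?_
    refine Primrec.pair (Primrec.fst.comp Primrec.snd) ?_
    refine Primrec.list_cons.comp ?_ ?_
    · refine Primrec.nat_add.comp ?_ ?_
      · exact add_prim (ad (add_prim (Primrec.fst.comp (Primrec.snd.comp Primrec.fst)) 4)
          (tp (Primrec.fst.comp Primrec.fst))) s
      · exact Primrec.nat_mul.comp (Primrec.const 2)
          (cnt_prim.comp (Primrec.fst.comp (Primrec.snd.comp Primrec.fst))
            (Primrec.snd.comp Primrec.snd))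
    · exact rem_prim.comp (Primrec.fst.comp (Primrec.snd.comp Primrec.fst))
        (Primrec.snd.comp Primrec.snd)

theorem aeq_primU (u u' : ℕ) :
    Primrec (fun x : (ℕ × ℕ × Poly) × ℕ => aeq x.1.1 u u' x.1.2.1 x.2) := by
  unfold aeq
  have hi : Primrec (fun x : (ℕ × ℕ × Poly) × ℕ => 2 * 2 ^ x.1.1) :=
    tp (Primrec.fst.comp Primrec.fst)
  have hn : Primrec (fun x : (ℕ × ℕ × Poly) × ℕ => x.1.2.1) :=
    Primrec.fst.comp (Primrec.snd.comp Primrec.fst)
  have he : Primrec (fun x : (ℕ × ℕ × Poly) × ℕ => 2 * x.2) :=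
    Primrec.nat_mul.comp (Primrec.const 2) Primrec.snd
  have he1 : Primrec (fun x : (ℕ × ℕ × Poly) × ℕ => 2 * (x.2 + 1)) :=
    Primrec.nat_mul.comp (Primrec.const 2) (add_prim Primrec.snd 1)
  refine Primrec.list_cons.comp (Primrec.pair (Primrec.const u) (sing_prim ?_))
    (Primrec.list_cons.comp (Primrec.pair (Primrec.const u') (Primrec.list_cons.comp hn
      (sing_prim ?_))) (sing_prim (Primrec.pair (Primrec.const u') (Primrec.list_cons.comp
        (add_prim hn 1) (sing_prim ?_)))))
  · exact ad (ad (add_prim hn 4) hi) he1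
  · exact ad (ad (add_prim hn 4) hi) he
  · exact ad (ad (add_prim hn 5) hi) he

theorem beq_primU (u u' : ℕ) :
    Primrec (fun x : (ℕ × ℕ × Poly) × ℕ => beq x.1.1 u u' x.1.2.1 x.2) := by
  unfold beq
  have hi : Primrec (fun x : (ℕ × ℕ × Poly) × ℕ => 2 * 2 ^ x.1.1) :=
    tp (Primrec.fst.comp Primrec.fst)
  have hn : Primrec (fun x : (ℕ × ℕ × Poly) × ℕ => x.1.2.1) :=
    Primrec.fst.comp (Primrec.snd.comp Primrec.fst)
  have he : Primrec (fun x : (ℕ × ℕ × Poly) × ℕ => 2 * x.2) :=
    Primrec.nat_mul.comp (Primrec.const 2) Primrec.snd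
  have he1 : Primrec (fun x : (ℕ × ℕ × Poly) × ℕ => 2 * (x.2 + 1)) :=
    Primrec.nat_mul.comp (Primrec.const 2) (add_prim Primrec.snd 1)
  refine Primrec.list_cons.comp (Primrec.pair (Primrec.const u) (sing_prim ?_))
    (Primrec.list_cons.comp (Primrec.pair (Primrec.const u') (sing_prim ?_))
      (sing_prim (Primrec.pair (Primrec.const u') (Primrec.list_cons.comp hn (sing_prim ?_)))))
  · exact ad (ad (add_prim hn 5) hi) he1
  · exact ad (ad (add_prim hn 4) hi) he
  · exact ad (ad (add_prim hn 5) hi) he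

end Pool.Agent.H901.Q2.FSUAux

namespace Pool.Agent.H901.Q2

open Pool.Agent.H901 Pool.Agent.H901.Q2.FSUAux

theorem fsu : S_FSU := by
  intro L1 L2 u u' h1 h2
  unfold fsysU
  have hi : Primrec (fun x : ℕ × ℕ × Poly => x.1) := Primrec.fst
  have h2i : Primrec (fun x : ℕ × ℕ × Poly => 2 * 2 ^ x.1) := tp Primrec.fst
  have hn : Primrec (fun x : ℕ × ℕ × Poly => x.2.1) := Primrec.fst.comp Primrec.snd
  have hd : Primrec (fun x : ℕ × ℕ × Poly => dgb x.2.2) :=
    dgb_prim.comp (Primrec.snd.comp Primrec.snd)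
  refine Primrec.pair ?_ (Primrec.list_append.comp ?_ (Primrec.list_append.comp ?_ ?_))
  · exact ad (ad (add_prim hn 6) h2i) (Primrec.nat_mul.comp (Primrec.const 2) hd)
  · refine Primrec.list_cons.comp (inst_primU u u' hi hn (h1.comp hi))
      (Primrec.list_cons.comp (inst_primU u u' hi hn (h2.comp hi))
      (Primrec.list_cons.comp ?_ (Primrec.list_cons.comp ?_ (Primrec.list_cons.comp
        (yeq_primU u' 0) (sing_prim (yeq_primU u' 1))))))
    · exact Primrec.list_cons.comp (Primrec.pair (Primrec.const u) (sing_prim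
        (ad (add_prim hn 4) h2i))) (Primrec.const [(u', [])])
    · exact sing_prim (Primrec.pair (Primrec.const u) (sing_prim
        (ad (add_prim hn 5) h2i)))
  · exact Primrec.list_map (Primrec.list_range.comp hd) (aeq_primU u u')
  · exact Primrec.list_map (Primrec.list_range.comp hd) (beq_primU u u')

end Pool.Agent.H901.Q2
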