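import Pool.Agent.H901.Q2.Stm
import Pool.Graph.R_pool_sql_team_ae5b0c61.H64.Psi1

/-!
# Project Q2, part LIFT: extensions of odd degree over a larger field
-/

set_option autoImplicit false

namespace Pool.Agent.H901.Q2

open Finset Polynomial Pool.Agent.H901 Pool.Agent.H901.Q

theorem lift : S_LIFT := by
  intro K K2 E _ _ _ _ _ _ hodd
  have hfin : FiniteDimensional K E := Module.finite_of_finrank_pos hodd.pos
  let pb := Field.powerBasisOfFiniteOfSeparable K E
  have hint : IsIntegral K pb.gen := pb.isIntegral_gen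
  have hdeg : (minpoly K pb.gen).natDegree = Module.finrank K E := by
    rw [pb.natDegree_minpoly, pb.finrank]
  have hmon : ((minpoly K pb.gen).map (algebraMap K K2)).Monic := (minpoly.monic hint).map _
  have hdeg2 : ((minpoly K pb.gen).map (algebraMap K K2)).natDegree = Module.finrank K E := by
    rw [(minpoly.monic hint).natDegree_map, hdeg]
  obtain ⟨P, hP, hPd, hPo⟩ := H64.Psi.odd_factor _ hmon.ne_zero (by rw [hdeg2]; exact hodd)
  have hPf : Fact (Irreducible P) := ⟨hP⟩
  have hroot : aeval (AdjoinRoot.root P) (minpoly K pb.gen) = 0 := by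
    have h1 : aeval (AdjoinRoot.root P) ((minpoly K pb.gen).map (algebraMap K K2)) = 0 := by
      rw [AdjoinRoot.aeval_eq]
      exact AdjoinRoot.mk_eq_zero.2 hPd
    rwa [aeval_map_algebraMap] at h1
  refine ⟨AdjoinRoot P, inferInstance, inferInstance, (pb.lift (AdjoinRoot.root P) hroot).toRingHom,
    ?_, ?_⟩
  · have h2 := (AdjoinRoot.powerBasis hP.ne_zero).finrank
    rw [AdjoinRoot.powerBasis_dim] at h2
    rw [h2]
    exact hPo
  · intro x
    have h3 := (pb.lift (AdjoinRoot.root P) hroot).commutes x
    rw [IsScalarTower.algebraMap_apply K K2 (AdjoinRoot P)] at h3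
    exact h3

end Pool.Agent.H901.Q2
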