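import Pool.Agent.H901.Q2.Stm

/-! Project Q2 (helper901), part LST: primitive recursive lists for the polynomials `g1 i`, `g2 i`. -/

set_option autoImplicit false

namespace Pool.Agent.H901.Q2

open Finset Pool.Agent.H901 Pool.Agent.H901.Q

namespace LSTAux

/-! ### the binary digits -/

/-- the binary digits `1` of `m` -/
def dg (i m : ℕ) : List ℕ :=
  (List.range i).flatMap fun j => if m / 2 ^ j % 2 = 1 then [j] else []

theorem dg_succ (i m : ℕ) :
    dg (i + 1) m = dg i m ++ (if m / 2 ^ i % 2 = 1 then [i] else []) := by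
  unfold dg
  rw [List.range_succ, List.flatMap_append]
  simp

theorem mem_dg {i m j : ℕ} (h : j ∈ dg i m) : j < i := by
  unfold dg at h
  rw [List.mem_flatMap] at h
  obtain ⟨k, hk, hj⟩ := h
  rw [List.mem_range] at hk
  split_ifs at hj
  · rw [List.mem_singleton] at hj
    omega
  · simp at hj

theorem dg_sub {i m : ℕ} (h : 2 ^ i ≤ m) : dg i (m - 2 ^ i) = dg i m := by
  unfold dg
  refine List.flatMap_congr fun j hj => ?_
  rw [List.mem_range] at hj
  have e : (m - 2 ^ i) / 2 ^ j % 2 = m / 2 ^ j % 2 := by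
    obtain ⟨k, rfl⟩ : ∃ k, i = j + (k + 1) := ⟨i - j - 1, by omega⟩
    obtain ⟨n, rfl⟩ : ∃ n, m = n + 2 ^ (j + (k + 1)) := ⟨m - 2 ^ (j + (k + 1)), by omega⟩
    rw [Nat.add_sub_cancel]
    have e2 : n + 2 ^ (j + (k + 1)) = n + 2 ^ j * (2 * 2 ^ k) := by
      rw [pow_add, pow_succ]
      ring
    rw [e2, Nat.add_mul_div_left _ _ (by positivity)]
    omega
  rw [e]

section Ring

variable {R : Type*} [CommRing R]

theorem pc_dg (a : ℕ → R) (i : ℕ) : ∀ m < 2 ^ i, pc a i m = ((dg i m).map fun j => -a j).prod := by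
  induction i with
  | zero =>
    intro m _
    simp [pc, dg]
  | succ i ih =>
    intro m hm
    rw [pc, dg_succ]
    by_cases h : m < 2 ^ i
    · rw [if_pos h, ih m h, Nat.div_eq_of_lt h]
      simp
    · rw [if_neg h]
      rw [pow_succ] at hm
      rw [ih _ (by omega), dg_sub (by omega)]
      have e : m / 2 ^ i = 1 := by
        rw [Nat.div_eq_iff (by positivity)]
        omega
      rw [e]
      simp [mul_comm]

theorem neg_prod (a : ℕ → R) (w : List ℕ) : (w.map fun j => -a j).prod =
    (if decide (w.length % 2 = 0) = true then 1 else -1) * (w.map a).prod := by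
  induction w with
  | nil => simp
  | cons x w ih =>
    rw [List.map_cons, List.prod_cons, ih, List.map_cons, List.prod_cons, List.length_cons]
    by_cases h : w.length % 2 = 0
    · have h' : ¬ (w.length + 1) % 2 = 0 := by omega
      simp only [h, h', decide_true, decide_false, if_true, Bool.false_eq_true, if_false]
      ring
    · have h' : (w.length + 1) % 2 = 0 := by omega
      simp only [h, h', decide_true, decide_false, if_true, Bool.false_eq_true, if_false]
      ring

/-- the monomial of `pc a i m` times another one -/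
def tm (i m : ℕ) (w : List ℕ) : Bool × List ℕ :=
  (decide ((dg i m).length % 2 = 0), dg i m ++ w)

theorem tm_val (i m : ℕ) (hm : m < 2 ^ i) (w : List ℕ) (ξ : ℕ → R) (a : ℕ → R)
    (ha : ∀ j < i, a j = ξ j) :
    (if (tm i m w).1 then (1 : R) else -1) * ((tm i m w).2.map ξ).prod =
      pc a i m * (w.map ξ).prod := by
  rw [pc_dg a i m hm, neg_prod]
  unfold tm
  simp only
  rw [List.map_append, List.prod_append, ← mul_assoc]
  congr 3
  exact List.map_congr_left fun j hj => (ha j (mem_dg hj)).symm

theorem sum_list (f : ℕ → R) (n : ℕ) :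
    ((List.range n).map f).sum = ∑ i ∈ range n, f i := by
  induction n with
  | zero => rfl
  | succ n ih =>
    rw [List.range_succ, List.map_append, List.sum_append, ih, Finset.sum_range_succ,
      List.map_singleton, List.sum_singleton]

theorem prod_list (f : ℕ → R) (n : ℕ) :
    ((List.range n).map f).prod = ∏ i ∈ range n, f i := by
  induction n with
  | zero => rfl
  | succ n ih =>
    rw [List.range_succ, List.map_append, List.prod_append, ih, Finset.prod_range_succ,
      List.map_singleton, List.prod_singleton]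

/-- product -/
def imul (L L' : IPoly) : IPoly :=
  L.flatMap fun t => L'.map fun t' => (decide (t.1 = t'.1), t.2 ++ t'.2)

theorem iev_map (ξ : ℕ → R) (t : Bool × List ℕ) (L' : IPoly) :
    iev ξ (L'.map fun t' => (decide (t.1 = t'.1), t.2 ++ t'.2)) =
      (if t.1 then 1 else -1) * (t.2.map ξ).prod * iev ξ L' := by
  unfold iev
  rw [List.map_map, ← List.sum_map_mul_left]
  congr 1
  refine List.map_congr_left fun t' _ => ?_
  simp only [Function.comp, List.map_append, List.prod_append]
  rcases t with ⟨_ | _, w⟩ <;> rcases t' with ⟨_ | _, w'⟩ <;> simp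

theorem iev_imul (ξ : ℕ → R) (L L' : IPoly) : iev ξ (imul L L') = iev ξ L * iev ξ L' := by
  unfold imul
  induction L with
  | nil => simp [iev_nil]
  | cons t L ih =>
    rw [List.flatMap_cons, iev_append, ih, iev_map, iev_cons]
    ring

/-- the index of the variable -/
def va (i j : ℕ) : ℕ := if j < i then j else i + 1

/-- the list of `∏ (a j - 1)` -/
def pr1 (i : ℕ) : IPoly :=
  (List.range (i + 1)).foldr (fun j acc => imul [(true, [va i j]), (false, [])] acc) [(true, [])]

theorem iev_pr1 (i : ℕ) (ξ : ℕ → R) : iev ξ (pr1 i) = ∏ j ∈ range (i + 1), (ξ (va i j) - 1) := by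
  unfold pr1
  rw [← prod_list]
  generalize List.range (i + 1) = l
  induction l with
  | nil => simp [iev]
  | cons j l ih =>
    rw [List.foldr_cons, iev_imul, ih, List.map_cons, List.prod_cons]
    congr 1
    simp [iev]
    ring

/-- the list of `dh a i` -/
def dhl (i : ℕ) : IPoly := imul (pr1 i) (pr1 i) ++ [(true, (List.range (i + 1)).map (va i))]

theorem iev_dhl (i : ℕ) (ξ : ℕ → R) : iev ξ (dhl i) = dh (fun j => ξ (va i j)) i := by
  unfold dhl dh
  rw [iev_append, iev_imul, iev_pr1, iev_cons, iev_nil, ← prod_list, List.map_map, ← prod_list]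
  simp only [if_true, one_mul, add_zero, Function.comp_def]
  ring

/-- the list of `g1 i` -/
def M1 (i : ℕ) : IPoly :=
  (true, [i]) :: ((List.range (2 ^ i - 2)).map
      (fun k => tm i (k + 1) [i + 1 + (k + 1), i + 1 + (k + 1)]) ++
    imul [tm i (2 ^ i - 1) [i + 1 + (2 ^ i - 1), i + 1 + (2 ^ i - 1)]] (dhl i))

/-- the list of `g2 i` -/
def M2 (i : ℕ) : IPoly :=
  (List.range (2 ^ i)).map (fun m => tm i m [i + 1 + 2 ^ i + m, i + 1 + 2 ^ i + m]) ++
    [(false, [i + 1, i + 1 + 2 * 2 ^ i, i + 1 + 2 * 2 ^ i]),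
      (true, [i + 1, i, i + 2 + 2 * 2 ^ i, i + 2 + 2 * 2 ^ i])]

theorem iev_M1 (i : ℕ) (ξ : ℕ → R) : iev ξ (M1 i) = g1 i ξ := by
  have h0 : 0 < 2 ^ i := by positivity
  have ha : ∀ j < i, (fun j => if j < i then ξ j else ξ (i + 1)) j = ξ j := by
    intro j hj
    simp [hj]
  have hva : (fun j => ξ (va i j)) = fun j => if j < i then ξ j else ξ (i + 1) := by
    funext j
    unfold va
    split_ifs <;> rfl
  unfold M1 g1 DD
  rw [iev_cons, iev_append, iev_imul, iev_dhl, hva]
  have e1 : iev ξ ((List.range (2 ^ i - 2)).map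
      (fun k => tm i (k + 1) [i + 1 + (k + 1), i + 1 + (k + 1)])) =
      ∑ m ∈ Ico 1 (2 ^ i - 1), pc (fun j => if j < i then ξ j else ξ (i + 1)) i m *
        ξ (i + 1 + m) ^ 2 := by
    unfold iev
    rw [List.map_map, sum_list, sum_Ico_eq_sum_range]
    refine Finset.sum_congr (by congr 1) fun k hk => ?_
    rw [mem_range] at hk
    rw [Function.comp_apply, tm_val i (k + 1) (by omega) _ ξ _ ha, add_comm 1 k]
    simp [pow_two]
  have e2 : iev ξ [tm i (2 ^ i - 1) [i + 1 + (2 ^ i - 1), i + 1 + (2 ^ i - 1)]] =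
      pc (fun j => if j < i then ξ j else ξ (i + 1)) i (2 ^ i - 1) *
        ξ (i + 1 + (2 ^ i - 1)) ^ 2 := by
    rw [iev_cons, iev_nil, add_zero, tm_val i (2 ^ i - 1) (by omega) _ ξ _ ha]
    simp [pow_two]
  rw [e1, e2]
  simp only [if_true, one_mul, List.map_cons, List.map_nil, List.prod_cons, List.prod_nil, mul_one]
  ring

theorem iev_M2 (i : ℕ) (ξ : ℕ → R) : iev ξ (M2 i) = g2 i ξ := by
  have ha : ∀ j < i, (fun j => if j < i then ξ j else ξ (i + 1)) j = ξ j := by
    intro j hj
    simp [hj]
  unfold M2 g2 pq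
  rw [iev_append]
  have e1 : iev ξ ((List.range (2 ^ i)).map
      (fun m => tm i m [i + 1 + 2 ^ i + m, i + 1 + 2 ^ i + m])) =
      ∑ m ∈ range (2 ^ i), pc (fun j => if j < i then ξ j else ξ (i + 1)) i m *
        ξ (i + 1 + 2 ^ i + m) ^ 2 := by
    unfold iev
    rw [List.map_map, sum_list]
    refine Finset.sum_congr rfl fun k hk => ?_
    rw [mem_range] at hk
    rw [Function.comp_apply, tm_val i k hk _ ξ _ ha]
    simp [pow_two]
  rw [e1, iev_cons, iev_cons, iev_nil]
  simp only [if_true, Bool.false_eq_true, if_false, one_mul, List.map_cons, List.map_nil,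
    List.prod_cons, List.prod_nil, mul_one]
  ring

end Ring

/-! ### the variables -/

/-- all variables are less than `n` -/
def Bd (n : ℕ) (L : IPoly) : Prop := ∀ t ∈ L, ∀ j ∈ t.2, j < n

theorem Bd.app {n : ℕ} {L L' : IPoly} (h : Bd n L) (h' : Bd n L') : Bd n (L ++ L') := by
  intro t ht
  rw [List.mem_append] at ht
  rcases ht with ht | ht
  · exact h t ht
  · exact h' t ht

theorem Bd.cons {n : ℕ} {t : Bool × List ℕ} {L : IPoly} (h : ∀ j ∈ t.2, j < n) (h' : Bd n L) :
    Bd n (t :: L) := by
  intro s hs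
  rw [List.mem_cons] at hs
  rcases hs with rfl | hs
  · exact h
  · exact h' s hs

theorem Bd.nil (n : ℕ) : Bd n [] := by
  intro t ht
  simp at ht

theorem Bd.imul {n : ℕ} {L L' : IPoly} (h : Bd n L) (h' : Bd n L') : Bd n (imul L L') := by
  intro t ht
  unfold LSTAux.imul at ht
  rw [List.mem_flatMap] at ht
  obtain ⟨s, hs, ht⟩ := ht
  rw [List.mem_map] at ht
  obtain ⟨s', hs', rfl⟩ := ht
  intro j hj
  rw [List.mem_append] at hj
  rcases hj with hj | hj
  · exact h s hs j hj
  · exact h' s' hs' j hj

theorem va_lt (i j : ℕ) : va i j < i + 2 := by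
  unfold va
  split_ifs <;> omega

theorem Bd_pr1 (i : ℕ) : Bd (i + 2) (pr1 i) := by
  unfold pr1
  generalize List.range (i + 1) = l
  induction l with
  | nil => exact Bd.cons (by simp) (Bd.nil _)
  | cons j l ih =>
    rw [List.foldr_cons]
    refine Bd.imul (Bd.cons ?_ (Bd.cons (by simp) (Bd.nil _))) ih
    intro k hk
    rw [List.mem_singleton] at hk
    rw [hk]
    exact va_lt i j

theorem Bd.mono {n n' : ℕ} (h : n ≤ n') {L : IPoly} (hL : Bd n L) : Bd n' L :=
  fun t ht j hj => lt_of_lt_of_le (hL t ht j hj) h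

theorem Bd_dhl (i : ℕ) : Bd (i + 2) (dhl i) := by
  unfold dhl
  refine Bd.app (Bd.imul (Bd_pr1 i) (Bd_pr1 i)) (Bd.cons ?_ (Bd.nil _))
  intro k hk
  rw [List.mem_map] at hk
  obtain ⟨j, -, rfl⟩ := hk
  exact va_lt i j

theorem tm_lt {n i m : ℕ} {w : List ℕ} (h : i ≤ n) (hw : ∀ j ∈ w, j < n) :
    ∀ j ∈ (tm i m w).2, j < n := by
  intro j hj
  unfold tm at hj
  rw [List.mem_append] at hj
  rcases hj with hj | hj
  · have := mem_dg hj
    omega
  · exact hw j hj

theorem Bd_M1 (i : ℕ) : Bd (i + 3 + 2 * 2 ^ i) (M1 i) := by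
  have h0 : 0 < 2 ^ i := by positivity
  unfold M1
  refine Bd.cons (by simp; omega) (Bd.app ?_ (Bd.imul (Bd.cons ?_ (Bd.nil _))
    ((Bd_dhl i).mono (by omega))))
  · intro t ht
    rw [List.mem_map] at ht
    obtain ⟨k, hk, rfl⟩ := ht
    rw [List.mem_range] at hk
    refine tm_lt (by omega) fun j hj => ?_
    simp only [List.mem_cons, List.not_mem_nil, or_false, or_self] at hj
    omega
  · refine tm_lt (by omega) fun j hj => ?_
    simp only [List.mem_cons, List.not_mem_nil, or_false, or_self] at hj
    omega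

theorem Bd_M2 (i : ℕ) : Bd (i + 3 + 2 * 2 ^ i) (M2 i) := by
  have h0 : 0 < 2 ^ i := by positivity
  unfold M2
  refine Bd.app ?_ (Bd.cons ?_ (Bd.cons ?_ (Bd.nil _)))
  · intro t ht
    rw [List.mem_map] at ht
    obtain ⟨k, hk, rfl⟩ := ht
    rw [List.mem_range] at hk
    refine tm_lt (by omega) fun j hj => ?_
    simp only [List.mem_cons, List.not_mem_nil, or_false, or_self] at hj
    omega
  · intro j hj
    simp only [List.mem_cons, List.not_mem_nil, or_false, or_self] at hj
    omega
  · intro j hj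
    simp only [List.mem_cons, List.not_mem_nil, or_false, or_self] at hj
    omega

/-! ### the lists are primitive recursive -/

theorem pw_prim : Primrec fun n : ℕ => 2 ^ n := by
  refine (Primrec.nat_rec₁ (f := fun _ x => 2 * x) 1
    (Primrec.nat_mul.comp (Primrec.const 2) Primrec.snd)).of_eq fun n => ?_
  induction n with
  | zero => rfl
  | succ n ih =>
    rw [pow_succ', ← ih]

theorem dg_prim : Primrec₂ dg := by
  unfold dg
  refine Primrec.list_flatMap (Primrec.list_range.comp Primrec.fst) ?_
  refine Primrec.ite ?_ (Primrec.list_cons.comp Primrec.snd (Primrec.const [])) (Primrec.const [])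
  refine Primrec.eq.comp ?_ (Primrec.const 1)
  exact Primrec.nat_mod.comp (Primrec.nat_div.comp (Primrec.snd.comp Primrec.fst)
    (pw_prim.comp Primrec.snd)) (Primrec.const 2)

theorem tm_prim {α : Type*} [Primcodable α] {f g : α → ℕ} {h : α → List ℕ} (hf : Primrec f)
    (hg : Primrec g) (hh : Primrec h) : Primrec fun x => tm (f x) (g x) (h x) := by
  unfold tm
  have h1 : Primrec fun x => dg (f x) (g x) := dg_prim.comp hf hg
  refine Primrec.pair ?_ (Primrec.list_append.comp h1 hh)
  exact PrimrecPred.decide (Primrec.eq.comp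
    (Primrec.nat_mod.comp (Primrec.list_length.comp h1) (Primrec.const 2)) (Primrec.const 0))

theorem imul_prim : Primrec₂ imul := by
  unfold imul
  refine Primrec.list_flatMap Primrec.fst ?_
  refine Primrec.list_map (Primrec.snd.comp Primrec.fst) ?_
  refine Primrec.pair ?_ ?_
  · exact PrimrecPred.decide (Primrec.eq.comp (Primrec.fst.comp (Primrec.snd.comp Primrec.fst))
      (Primrec.fst.comp Primrec.snd))
  · exact Primrec.list_append.comp (Primrec.snd.comp (Primrec.snd.comp Primrec.fst))
      (Primrec.snd.comp Primrec.snd)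

theorem va_prim : Primrec₂ va := by
  unfold va
  exact Primrec.ite (Primrec.nat_lt.comp Primrec.snd Primrec.fst) Primrec.snd
    (Primrec.succ.comp Primrec.fst)

theorem pr1_prim : Primrec pr1 := by
  unfold pr1
  refine Primrec.list_foldr (f := fun i : ℕ => List.range (i + 1)) (g := fun _ => [(true, [])])
    (h := fun i (p : ℕ × IPoly) => imul [(true, [va i p.1]), (false, [])] p.2)
    (Primrec.list_range.comp Primrec.succ) (Primrec.const _) ?_
  refine imul_prim.comp ?_ (Primrec.snd.comp Primrec.snd)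
  refine Primrec.list_cons.comp (Primrec.pair (Primrec.const true) ?_) (Primrec.const _)
  exact Primrec.list_cons.comp (va_prim.comp Primrec.fst (Primrec.fst.comp Primrec.snd))
    (Primrec.const [])

theorem dhl_prim : Primrec dhl := by
  unfold dhl
  refine Primrec.list_append.comp (imul_prim.comp pr1_prim pr1_prim) ?_
  refine Primrec.list_cons.comp (Primrec.pair (Primrec.const true) ?_) (Primrec.const [])
  exact Primrec.list_map (Primrec.list_range.comp Primrec.succ) va_prim

/-- lists with two equal entries -/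
theorem two_prim {α : Type*} [Primcodable α] {f : α → ℕ} (hf : Primrec f) :
    Primrec fun x => [f x, f x] :=
  Primrec.list_cons.comp hf (Primrec.list_cons.comp hf (Primrec.const []))

theorem M1_prim : Primrec M1 := by
  unfold M1
  refine Primrec.list_cons.comp (Primrec.pair (Primrec.const true)
    (Primrec.list_cons.comp Primrec.id (Primrec.const []))) (Primrec.list_append.comp ?_
      (imul_prim.comp (Primrec.list_cons.comp ?_ (Primrec.const [])) dhl_prim))
  · refine Primrec.list_map (Primrec.list_range.comp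
      (Primrec.nat_sub.comp pw_prim (Primrec.const 2))) ?_
    refine tm_prim Primrec.fst (Primrec.succ.comp Primrec.snd) (two_prim ?_)
    exact Primrec.nat_add.comp (Primrec.succ.comp Primrec.fst) (Primrec.succ.comp Primrec.snd)
  · refine tm_prim Primrec.id (Primrec.nat_sub.comp pw_prim (Primrec.const 1)) (two_prim ?_)
    exact Primrec.nat_add.comp Primrec.succ (Primrec.nat_sub.comp pw_prim (Primrec.const 1))

theorem M2_prim : Primrec M2 := by
  have hpw2 : Primrec fun i : ℕ => 2 * 2 ^ i := Primrec.nat_mul.comp (Primrec.const 2) pw_prim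
  have h1 : Primrec fun i : ℕ => i + 1 + 2 * 2 ^ i := Primrec.nat_add.comp Primrec.succ hpw2
  have h2 : Primrec fun i : ℕ => i + 2 + 2 * 2 ^ i :=
    Primrec.nat_add.comp (Primrec.nat_add.comp Primrec.id (Primrec.const 2)) hpw2
  unfold M2
  refine Primrec.list_append.comp ?_ ?_
  · refine Primrec.list_map (Primrec.list_range.comp pw_prim) ?_
    refine tm_prim Primrec.fst Primrec.snd (two_prim ?_)
    exact Primrec.nat_add.comp (Primrec.nat_add.comp (Primrec.succ.comp Primrec.fst)
      (pw_prim.comp Primrec.fst)) Primrec.snd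
  · refine Primrec.list_cons.comp (Primrec.pair (Primrec.const false)
      (Primrec.list_cons.comp Primrec.succ (two_prim h1)))
      (Primrec.list_cons.comp (Primrec.pair (Primrec.const true) ?_) (Primrec.const []))
    exact Primrec.list_cons.comp Primrec.succ (Primrec.list_cons.comp Primrec.id (two_prim h2))

end LSTAux

open LSTAux in
theorem lst : S_LST :=
  ⟨M1, M2, M1_prim, M2_prim, fun i => ⟨Bd_M1 i, Bd_M2 i, fun _ _ ξ => ⟨iev_M1 i ξ, iev_M2 i ξ⟩⟩⟩

end Pool.Agent.H901.Q2
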