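import Pool.Agent.H901.Q2.Stm

/-! Project Q2 of helper901, part PLACE: a place of odd degree (proved by helper253). -/

set_option autoImplicit false

open Polynomial UniqueFactorizationMonoid Pool.Agent.H901.Q

namespace Pool.Agent.H901.Q2.PLACEAux

section weight

variable {K : Type} [Field K] {w : K[X] → ℕ}
  (hw : ∀ f g : K[X], f ≠ 0 → g ≠ 0 → w (f * g) = w f + w g)

include hw in
theorem w_unit (u : K[X]) (hu : IsUnit u) : w u = 0 := by
  have h1 : w 1 = 0 := by
    have := hw 1 1 one_ne_zero one_ne_zero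
    rw [mul_one] at this
    omega
  obtain ⟨v, hv⟩ := hu.exists_right_inv
  have hu0 : u ≠ 0 := hu.ne_zero
  have hv0 : v ≠ 0 := by
    rintro rfl
    rw [mul_zero] at hv
    exact zero_ne_one hv
  have := hw u v hu0 hv0
  rw [hv, h1] at this
  omega

include hw in
theorem w_assoc {p q : K[X]} (h : Associated p q) (hp : p ≠ 0) : w p = w q := by
  obtain ⟨u, hu⟩ := h
  rw [← hu, hw p u hp u.isUnit.ne_zero, w_unit hw u u.isUnit, add_zero]

include hw in
theorem w_pow (p : K[X]) (hp : p ≠ 0) (n : ℕ) : w (p ^ n) = n * w p := by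
  induction n with
  | zero => rw [pow_zero, w_unit hw 1 isUnit_one, zero_mul]
  | succ n ih => rw [pow_succ, hw _ _ (pow_ne_zero n hp) hp, ih]; ring

end weight

section ideal

variable {K R : Type} [Field K] [CharZero K] [CommRing R] [IsDedekindDomain R]
  [Algebra K[X] R] [Module.Finite K[X] R] [Module.IsTorsionFree K[X] R] {w : K[X] → ℕ}

/-- the weight of an ideal -/
noncomputable def WW (w : K[X] → ℕ) (I : Ideal R) : ℕ :=
  w (Submodule.IsPrincipal.generator (Ideal.relNorm K[X] I))

variable (hw : ∀ f g : K[X], f ≠ 0 → g ≠ 0 → w (f * g) = w f + w g)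

omit [CharZero K] in
include hw in
theorem WW_eq (I : Ideal R) (p : K[X]) (hp : p ≠ 0) (h : Ideal.relNorm K[X] I = Ideal.span {p}) :
    WW w I = w p := by
  unfold WW
  have h1 : Ideal.span {Submodule.IsPrincipal.generator (Ideal.relNorm K[X] I)} =
      Ideal.span {p} := by
    rw [Ideal.span_singleton_generator, h]
  exact (w_assoc hw (Ideal.span_singleton_eq_span_singleton.1 h1).symm hp).symm

omit [CharZero K] in
theorem gen_ne (I : Ideal R) (hI : I ≠ ⊥) :
    Submodule.IsPrincipal.generator (Ideal.relNorm K[X] I) ≠ 0 := by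
  intro h
  have h1 := Ideal.span_singleton_generator (Ideal.relNorm K[X] I)
  rw [h, Set.singleton_zero, Ideal.span_zero] at h1
  exact hI (Ideal.relNorm_eq_bot_iff.1 h1.symm)

omit [CharZero K] in
include hw in
theorem WW_mul (I J : Ideal R) (hI : I ≠ ⊥) (hJ : J ≠ ⊥) : WW w (I * J) = WW w I + WW w J := by
  have h1 : Ideal.relNorm K[X] (I * J) =
      Ideal.span {Submodule.IsPrincipal.generator (Ideal.relNorm K[X] I) *
        Submodule.IsPrincipal.generator (Ideal.relNorm K[X] J)} := by
    rw [map_mul, ← Ideal.span_singleton_mul_span_singleton, Ideal.span_singleton_generator,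
      Ideal.span_singleton_generator]
  rw [WW_eq hw _ _ (mul_ne_zero (gen_ne I hI) (gen_ne J hJ)) h1,
    hw _ _ (gen_ne I hI) (gen_ne J hJ)]
  rfl

omit [CharZero K] in
include hw in
theorem WW_top : WW w (⊤ : Ideal R) = 0 := by
  rw [WW_eq hw ⊤ 1 one_ne_zero (by rw [Ideal.relNorm_top, Ideal.span_singleton_one]),
    w_unit hw 1 isUnit_one]

omit [CharZero K] in
include hw in
theorem WW_prod (s : Multiset (Ideal R)) (hs : ∀ P ∈ s, P ≠ ⊥) :
    s.prod ≠ ⊥ ∧ WW w s.prod = (s.map (WW w)).sum := by
  induction s using Multiset.induction_on with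
  | empty =>
    simp only [Multiset.prod_zero, Multiset.map_zero, Multiset.sum_zero, Ideal.one_eq_top]
    exact ⟨top_ne_bot, WW_top hw⟩
  | cons P s ih =>
    have h1 := ih fun Q hQ => hs Q (Multiset.mem_cons_of_mem hQ)
    have h2 := hs P (Multiset.mem_cons_self P s)
    rw [Multiset.prod_cons, Multiset.map_cons, Multiset.sum_cons, WW_mul hw _ _ h2 h1.1, h1.2]
    exact ⟨mul_ne_zero h2 h1.1, rfl⟩

include hw in
theorem ideal_half [Algebra K R] [IsScalarTower K K[X] R]
    (hodd : ∀ p : K[X], Irreducible p → Odd (w p) → Odd p.natDegree) (f : R) (hf : f ≠ 0)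
    (h : Odd (w (Algebra.intNorm K[X] R f))) :
    ∃ P : Ideal R, P.IsMaximal ∧ P ≠ ⊥ ∧
      Odd (Multiset.count P (normalizedFactors (Ideal.span {f}))) ∧
      Odd (Module.finrank K (R ⧸ P)) := by
  classical
  have hf0 : Ideal.span {f} ≠ (⊥ : Ideal R) := by
    rwa [Ne, Ideal.span_singleton_eq_bot]
  have hn0 : Algebra.intNorm K[X] R f ≠ 0 := by
    intro h0
    have h1 := Ideal.relNorm_singleton K[X] f
    rw [h0, Set.singleton_zero, Ideal.span_zero, Ideal.relNorm_eq_bot_iff] at h1
    exact hf0 h1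
  have hW : WW w (Ideal.span {f}) = w (Algebra.intNorm K[X] R f) :=
    WW_eq hw _ _ hn0 (Ideal.relNorm_singleton K[X] f)
  have hpr : ∀ P ∈ normalizedFactors (Ideal.span {f}), Prime P := fun P hP =>
    prime_of_normalized_factor P hP
  have hprod : (normalizedFactors (Ideal.span {f})).prod = Ideal.span {f} :=
    associated_iff_eq.1 (prod_normalizedFactors hf0)
  have hsum := (WW_prod hw (normalizedFactors (Ideal.span {f})) fun P hP => (hpr P hP).ne_zero).2
  rw [hprod, hW, Finset.sum_multiset_map_count] at hsum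
  obtain ⟨P, hP, hP1, hP2⟩ : ∃ P ∈ (normalizedFactors (Ideal.span {f})).toFinset,
      Odd (Multiset.count P (normalizedFactors (Ideal.span {f}))) ∧ Odd (WW w P) := by
    by_contra hcon
    push Not at hcon
    rw [hsum] at h
    rw [← Nat.not_even_iff_odd] at h
    apply h
    refine Finset.even_sum _ fun P hP => ?_
    rw [smul_eq_mul, Nat.even_mul]
    by_cases h1 : Odd (Multiset.count P (normalizedFactors (Ideal.span {f})))
    · right
      rw [← Nat.not_odd_iff_even]
      exact hcon P hP h1
    · left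
      rwa [← Nat.not_odd_iff_even]
  have hPp := hpr P (Multiset.mem_toFinset.1 hP)
  have hPprime : P.IsPrime := Ideal.isPrime_of_prime hPp
  have hPmax : P.IsMaximal := hPprime.isMaximal hPp.ne_zero
  refine ⟨P, hPmax, hPp.ne_zero, hP1, ?_⟩
  set p : Ideal K[X] := P.under K[X] with hp
  have hpmax : p.IsMaximal := Ideal.IsMaximal.under K[X] P
  have hrel : Ideal.relNorm K[X] P = p ^ P.inertiaDeg K[X] :=
    Ideal.relNorm_eq_pow_of_isMaximal P p
  have hp0 : p ≠ ⊥ := by
    intro h0
    have h1 : Ideal.relNorm K[X] P ≠ ⊥ := fun h2 => hPp.ne_zero (Ideal.relNorm_eq_bot_iff.1 h2)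
    rw [hrel, h0] at h1
    exact h1 (by
      rw [← Ideal.zero_eq_bot, zero_pow (Ideal.inertiaDeg_pos P K[X]).ne'])
  set π := Submodule.IsPrincipal.generator p with hπ
  have hπp : Prime π := Submodule.IsPrincipal.prime_generator_of_isPrime p hp0
  have hspan : Ideal.span {π} = p := Ideal.span_singleton_generator p
  have hWP : WW w P = P.inertiaDeg K[X] * w π := by
    rw [WW_eq hw P (π ^ P.inertiaDeg K[X]) (pow_ne_zero _ hπp.ne_zero)
      (by rw [hrel, ← Ideal.span_singleton_pow, hspan]), w_pow hw _ hπp.ne_zero]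
  rw [hWP, Nat.odd_mul] at hP2
  have hdeg := hodd π hπp.irreducible hP2.2
  have e1 : P.inertiaDeg K[X] = Module.finrank (K[X] ⧸ p) (R ⧸ P) :=
    Ideal.inertiaDeg_eq_of_isMaximal p P
  let _ : Field (K[X] ⧸ p) := Ideal.Quotient.field p
  have e2 : Module.finrank K (K[X] ⧸ p) = π.natDegree := by
    rw [← hspan]
    exact finrank_quotient_span_eq_natDegree
  have e3 := Module.finrank_mul_finrank K (K[X] ⧸ p) (R ⧸ P)
  rw [← e3, e2, ← e1, Nat.odd_mul]
  exact ⟨hdeg, hP2.1⟩

end ideal

end Pool.Agent.H901.Q2.PLACEAux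

namespace Pool.Agent.H901.Q2.PLACEAux

theorem gq_smul {F : Type} [CommRing F] (g : ℕ → ℕ → F) (m : ℕ) (z : ℕ → F) (c : F) :
    gq g m (fun i => c * z i) = c ^ 2 * gq g m z := by
  unfold gq
  rw [Finset.mul_sum]
  refine Finset.sum_congr rfl fun i _ => ?_
  rw [Finset.mul_sum]
  refine Finset.sum_congr rfl fun j _ => ?_
  ring

theorem count_zero {R : Type} [CommRing R] [IsDedekindDomain R] (P : Ideal R) (a : R)
    (ha : a ∉ P) : Multiset.count P (normalizedFactors (Ideal.span {a})) = 0 := by
  rw [Multiset.count_eq_zero]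
  intro h
  apply ha
  have h1 := dvd_of_mem_normalizedFactors h
  rw [Ideal.dvd_iff_le] at h1
  exact h1 (Ideal.mem_span_singleton_self a)

theorem count_mul {R : Type} [CommRing R] [IsDedekindDomain R] (P : Ideal R) (a b : R)
    (ha : a ≠ 0) (hb : b ≠ 0) : Multiset.count P (normalizedFactors (Ideal.span {a * b})) =
      Multiset.count P (normalizedFactors (Ideal.span {a})) +
      Multiset.count P (normalizedFactors (Ideal.span {b})) := by
  rw [← Ideal.span_singleton_mul_span_singleton, normalizedFactors_mul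
    (by rwa [Ne, Ideal.zero_eq_bot, Ideal.span_singleton_eq_bot])
    (by rwa [Ne, Ideal.zero_eq_bot, Ideal.span_singleton_eq_bot]), Multiset.count_add]

theorem place_half {K R L : Type} [Field K] [CommRing R] [IsDedekindDomain R]
    [Field L] [Algebra K R] [Algebra R L] [IsFractionRing R L] [Algebra K L] [IsScalarTower K R L]
    (P : Ideal R) (hP : P.IsMaximal) (hP0 : P ≠ ⊥) (m : ℕ) (z : ℕ → R) (g : ℕ → ℕ → K) (f : R)
    (hf : f ≠ 0)
    (hfz : algebraMap R L f = gq (fun i j => algebraMap K L (g i j)) m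
      (fun i => algebraMap R L (z i)))
    (hodd : Odd (Multiset.count P (normalizedFactors (Ideal.span {f})))) :
    ∃ (O : Subalgebra K L) (φ : O →ₐ[K] (R ⧸ P)) (c : L),
        (∀ r : R, algebraMap R L r ∈ O) ∧
        (∀ i < m, c * algebraMap R L (z i) ∈ O) ∧
        (∃ i < m, ∃ h : c * algebraMap R L (z i) ∈ O, φ ⟨c * algebraMap R L (z i), h⟩ ≠ 0) ∧
        ∃ h : c ^ 2 * algebraMap R L f ∈ O, φ ⟨c ^ 2 * algebraMap R L f, h⟩ = 0 := by
  classical
  have hPp : P.IsPrime := hP.isPrime
  have hS : P.primeCompl ≤ nonZeroDivisors R := P.primeCompl_le_nonZeroDivisors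
  set A : Subalgebra R L := Localization.subalgebra.ofField L P.primeCompl hS with hA
  have i1 : IsLocalization P.primeCompl A := Localization.subalgebra.isLocalization_ofField L _ hS
  have i2 : IsFractionRing A L := Localization.subalgebra.isFractionRing_ofField L _ hS
  have i3 : IsLocalization.AtPrime A P := i1
  have i4 : IsDiscreteValuationRing A :=
    IsLocalization.AtPrime.isDiscreteValuationRing_of_dedekind_domain R hP0 A
  have hinj : Function.Injective (algebraMap R L) := IsFractionRing.injective R L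
  -- the maximal one
  have hex : ∃ i < m, z i ≠ 0 := by
    by_contra hcon
    push Not at hcon
    apply hf
    apply hinj
    rw [hfz, map_zero]
    unfold gq
    refine Finset.sum_eq_zero fun i hi => Finset.sum_eq_zero fun j _ => ?_
    change algebraMap K L (g i j) * (algebraMap R L (z i) * algebraMap R L (z j)) = 0
    rw [hcon i (Finset.mem_range.1 hi), map_zero, zero_mul, mul_zero]
  obtain ⟨i1', hi1, hzi1⟩ := hex
  set v := ValuationRing.valuation A L with hv
  obtain ⟨i0, hi0, hmax⟩ := Finset.exists_max_image (Finset.range m)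
    (fun i => v (algebraMap R L (z i))) ⟨i1', Finset.mem_range.2 hi1⟩
  rw [Finset.mem_range] at hi0
  have hz0 : z i0 ≠ 0 := by
    intro h0
    have h1 := hmax i1' (Finset.mem_range.2 hi1)
    simp only [h0, map_zero] at h1
    rw [le_zero_iff, Valuation.zero_iff] at h1
    exact hzi1 (hinj (by rw [h1, map_zero]))
  have hz0' : algebraMap R L (z i0) ≠ 0 := fun h => hz0 (hinj (by rw [h, map_zero]))
  set c : L := (algebraMap R L (z i0))⁻¹ with hc
  have hmem : ∀ i < m, c * algebraMap R L (z i) ∈ A := by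
    intro i hi
    have h1 : c * algebraMap R L (z i) ∈ v.integer := by
      rw [Valuation.mem_integer_iff, map_mul, hc, map_inv₀]
      have h2 := hmax i (Finset.mem_range.2 hi)
      have h3 : v (algebraMap R L (z i0)) ≠ 0 := by rwa [Valuation.ne_zero_iff]
      calc (v (algebraMap R L (z i0)))⁻¹ * v (algebraMap R L (z i)) ≤
          (v (algebraMap R L (z i0)))⁻¹ * v (algebraMap R L (z i0)) := mul_le_mul_right h2 _
        _ = 1 := inv_mul_cancel₀ h3
    rw [hv, ValuationRing.mem_integer_iff] at h1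
    obtain ⟨a, ha⟩ := h1
    rw [← ha]
    exact a.2
  have hRA : ∀ r : R, algebraMap R L r ∈ A := fun r => A.algebraMap_mem r
  have hgq : c ^ 2 * algebraMap R L f ∈ A := by
    rw [hfz, ← gq_smul]
    unfold gq
    refine sum_mem fun i hi => sum_mem fun j hj => ?_
    refine mul_mem ?_ (mul_mem (hmem i (Finset.mem_range.1 hi)) (hmem j (Finset.mem_range.1 hj)))
    change algebraMap K L (g i j) ∈ A
    rw [IsScalarTower.algebraMap_apply K R L]
    exact hRA _
  have hunit : ∀ y : P.primeCompl, IsUnit (Ideal.Quotient.mk P (y : R)) := by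
    intro y
    let _ : Field (R ⧸ P) := Ideal.Quotient.field P
    rw [isUnit_iff_ne_zero]
    intro h0
    exact y.2 (Ideal.Quotient.eq_zero_iff_mem.1 h0)
  set φ : A →+* (R ⧸ P) := IsLocalization.lift (M := P.primeCompl) (S := A) hunit with hφ
  have hφe : ∀ r : R, φ (algebraMap R A r) = Ideal.Quotient.mk P r := fun r =>
    IsLocalization.lift_eq hunit r
  refine ⟨A.restrictScalars K, { φ with commutes' := fun k => ?_ }, c, hRA, hmem,
    ⟨i0, hi0, hmem i0 hi0, ?_⟩, hgq, ?_⟩
  · have h1 : algebraMap K (A.restrictScalars K) k = (algebraMap R A (algebraMap K R k) : A) := by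
      apply Subtype.ext
      exact IsScalarTower.algebraMap_apply K R L k
    change φ (algebraMap K (A.restrictScalars K) k) = _
    rw [h1, hφe]
    rfl
  · change φ ⟨c * algebraMap R L (z i0), _⟩ ≠ 0
    have h1 : (⟨c * algebraMap R L (z i0), hmem i0 hi0⟩ : A) = 1 := by
      apply Subtype.ext
      exact inv_mul_cancel₀ hz0'
    rw [h1, map_one]
    intro h0
    exact hP.ne_top (Ideal.eq_top_of_isUnit_mem _ (Ideal.Quotient.eq_zero_iff_mem.1 h0) isUnit_one)
  · change φ ⟨c ^ 2 * algebraMap R L f, _⟩ = 0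
    by_contra hne
    obtain ⟨a, s, has⟩ := IsLocalization.exists_mk'_eq P.primeCompl
      (⟨c ^ 2 * algebraMap R L f, hgq⟩ : A)
    have h1 : (⟨c ^ 2 * algebraMap R L f, hgq⟩ : A) * algebraMap R A s = algebraMap R A a := by
      rw [← has]
      exact IsLocalization.mk'_spec A a s
    have ha : a ∉ P := by
      intro haP
      have h2 := congrArg φ h1
      rw [map_mul, hφe, hφe, Ideal.Quotient.eq_zero_iff_mem.2 haP] at h2
      exact hne ((hunit s).mul_left_eq_zero.1 h2)
    have h3 : c ^ 2 * algebraMap R L f * algebraMap R L s = algebraMap R L a :=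
      congrArg (fun x : A => (x : L)) h1
    have h4 : f * s = a * (z i0 * z i0) := by
      apply hinj
      rw [map_mul, map_mul, map_mul, ← h3, hc]
      field_simp
    have hs : (s : R) ∉ P := s.2
    have hs0 : (s : R) ≠ 0 := fun h => hs (h ▸ P.zero_mem)
    have ha0 : a ≠ 0 := fun h => ha (h ▸ P.zero_mem)
    have h5 := congrArg (fun r => Multiset.count P (normalizedFactors (Ideal.span {r}))) h4
    rw [count_mul P f s hf hs0, count_mul P a _ ha0 (mul_ne_zero hz0 hz0),
      count_mul P _ _ hz0 hz0, count_zero P s hs, count_zero P a ha, add_zero, zero_add] at h5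
    rw [h5] at hodd
    exact (Nat.not_odd_iff_even.2 (Even.add_self _)) hodd

end Pool.Agent.H901.Q2.PLACEAux

namespace Pool.Agent.H901.Q2

theorem PLACEAux.gq_map {F G : Type} [CommRing F] [CommRing G] (φ : F →+* G) (g : ℕ → ℕ → F)
    (m : ℕ) (z : ℕ → F) : φ (gq g m z) = gq (fun i j => φ (g i j)) m (fun i => φ (z i)) := by
  unfold gq
  rw [map_sum]
  refine Finset.sum_congr rfl fun i _ => ?_
  rw [map_sum]
  refine Finset.sum_congr rfl fun j _ => ?_
  rw [map_mul, map_mul]

theorem PLACEAux.gq_congr {F : Type} [CommRing F] (g g' : ℕ → ℕ → F) (m : ℕ) (z z' : ℕ → F)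
    (h : ∀ i j, g i j = g' i j) (hz : ∀ i < m, z i = z' i) : gq g m z = gq g' m z' := by
  unfold gq
  refine Finset.sum_congr rfl fun i hi => Finset.sum_congr rfl fun j hj => ?_
  rw [h, hz i (Finset.mem_range.1 hi), hz j (Finset.mem_range.1 hj)]

set_option synthInstance.maxHeartbeats 400000 in
theorem place : S_PLACE := by
  intro K L _ _ _ _ _ _ _ w hw hodd m z g hf0 hN
  classical
  let aKL : Algebra K[X] L :=
    ((algebraMap (RatFunc K) L).comp (algebraMap K[X] (RatFunc K))).toAlgebra
  have t1 : IsScalarTower K[X] (RatFunc K) L := IsScalarTower.of_algebraMap_eq fun _ => rfl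
  have t2 : IsScalarTower K K[X] L := IsScalarTower.of_algebraMap_eq fun k => by
    rw [IsScalarTower.algebraMap_apply K (RatFunc K) L, IsScalarTower.algebraMap_apply K K[X]
      (RatFunc K)]
    rfl
  have c0 : CharZero (RatFunc K) := inferInstance
  have sep : Algebra.IsSeparable (RatFunc K) L := inferInstance
  let R := integralClosure K[X] L
  have d1 : IsDedekindDomain R := integralClosure.isDedekindDomain K[X] (RatFunc K) L
  have d2 : Module.Finite K[X] R := IsIntegralClosure.finite K[X] (RatFunc K) L R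
  have d3 : IsFractionRing R L := integralClosure.isFractionRing_of_finite_extension (RatFunc K) L
  have t3 : IsScalarTower K R L := inferInstance
  have t4 : IsScalarTower K K[X] R := inferInstance
  have inj : Function.Injective (algebraMap K[X] L) :=
    (algebraMap (RatFunc K) L).injective.comp (IsFractionRing.injective K[X] (RatFunc K))
  have inj2 : Function.Injective (algebraMap K[X] R) := fun x y h =>
    inj (congrArg (algebraMap R L) h)
  have d4 : Module.IsTorsionFree K[X] R := Module.isTorsionFree_iff_algebraMap_injective.2 inj2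
  obtain ⟨b, hb0, hb⟩ := exists_integral_multiples K[X] (RatFunc K) ((Finset.range m).image z)
  have hbi : ∀ i < m, IsIntegral K[X] (algebraMap K[X] L b * z i) := fun i hi => by
    rw [← Algebra.smul_def]
    exact hb _ (Finset.mem_image_of_mem z (Finset.mem_range.2 hi))
  let z' : ℕ → R := fun i => if h : i < m then ⟨algebraMap K[X] L b * z i, hbi i h⟩ else 0
  have hz' : ∀ i < m, algebraMap R L (z' i) = algebraMap K[X] L b * z i := fun i hi => by
    simp only [z', dif_pos hi]
    rfl
  set f : L := gq (fun i j => algebraMap K L (g i j)) m z with hf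
  let f' : R := gq (fun i j => algebraMap K R (g i j)) m z'
  have hf'1 : algebraMap R L f' = gq (fun i j => algebraMap K L (g i j)) m
      (fun i => algebraMap R L (z' i)) := by
    rw [PLACEAux.gq_map]
    exact PLACEAux.gq_congr _ _ m _ _ (fun i j =>
      (IsScalarTower.algebraMap_apply K R L (g i j)).symm) fun i _ => rfl
  have hf'2 : algebraMap R L f' = algebraMap K[X] L b ^ 2 * f := by
    rw [hf'1, hf, ← PLACEAux.gq_smul]
    exact PLACEAux.gq_congr _ _ m _ _ (fun i j => rfl) hz'
  have hb0' : algebraMap K[X] L b ≠ 0 := fun h => hb0 (inj (by rw [h, map_zero]))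
  have hf'0 : f' ≠ 0 := by
    intro h
    rw [h, map_zero] at hf'2
    exact mul_ne_zero (pow_ne_zero 2 hb0') hf0 hf'2.symm
  -- the norm
  set N : RatFunc K := Algebra.norm (RatFunc K) f with hNdef
  have hn1 : algebraMap K[X] (RatFunc K) (Algebra.intNorm K[X] R f') =
      algebraMap K[X] (RatFunc K) (b ^ (2 * Module.finrank (RatFunc K) L)) * N := by
    rw [Algebra.algebraMap_intNorm (L := L), hf'2, map_mul, map_pow,
      IsScalarTower.algebraMap_apply K[X] (RatFunc K) L b, Algebra.norm_algebraMap, ← pow_mul,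
      map_pow, mul_comm 2]
  have hn2 : Algebra.intNorm K[X] R f' * N.denom =
      b ^ (2 * Module.finrank (RatFunc K) L) * N.num := by
    apply IsFractionRing.injective K[X] (RatFunc K)
    have h1 := RatFunc.num_div_denom N
    have h2 : algebraMap K[X] (RatFunc K) N.denom ≠ 0 := by
      intro h
      exact RatFunc.denom_ne_zero N (IsFractionRing.injective K[X] (RatFunc K) (by
        rw [h, map_zero]))
    rw [div_eq_iff h2] at h1
    rw [map_mul, map_mul, hn1, h1, mul_assoc]
  have hN0 : N ≠ 0 := Algebra.norm_ne_zero_iff.2 hf0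
  have hn0 : Algebra.intNorm K[X] R f' ≠ 0 := by
    intro h
    rw [h, zero_mul] at hn2
    exact mul_ne_zero (pow_ne_zero _ hb0) (RatFunc.num_ne_zero hN0) hn2.symm
  have hn3 : Odd (w (Algebra.intNorm K[X] R f')) := by
    have h1 := congrArg w hn2
    rw [hw _ _ hn0 (RatFunc.denom_ne_zero N), hw _ _ (pow_ne_zero _ hb0)
      (RatFunc.num_ne_zero hN0), PLACEAux.w_pow hw b hb0] at h1
    obtain ⟨k, hk⟩ := hN
    have h2 : w (Algebra.intNorm K[X] R f') + 2 * w N.denom =
        2 * (Module.finrank (RatFunc K) L * w b + k) + 1 := by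
      rw [mul_assoc] at h1
      omega
    rw [Nat.odd_iff]
    omega
  obtain ⟨P, hP, hP0, hcnt, hfin⟩ := PLACEAux.ideal_half (K := K) hw hodd f' hf'0 hn3
  obtain ⟨O, φ, c, hRO, h1, ⟨i0, hi0, h2, h3⟩, h4, h5⟩ :=
    PLACEAux.place_half (K := K) (L := L) P hP hP0 m z' g f' hf'0 hf'1 hcnt
  let _ : Field (R ⧸ P) := Ideal.Quotient.field P
  have e1 : ∀ i < m, c * algebraMap R L (z' i) = c * algebraMap K[X] L b * z i := fun i hi => by
    rw [hz' i hi, mul_assoc]
  have e2 : c ^ 2 * algebraMap R L f' = (c * algebraMap K[X] L b) ^ 2 * f := by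
    rw [hf'2]; ring
  refine ⟨R ⧸ P, inferInstance, inferInstance, O, φ, c * algebraMap K[X] L b, hfin, ?_, ?_, ?_, ?_⟩
  · have h6 := hRO (algebraMap K[X] R X)
    rw [← IsScalarTower.algebraMap_apply K[X] R L, IsScalarTower.algebraMap_apply K[X] (RatFunc K) L,
      RatFunc.algebraMap_X] at h6
    exact h6
  · intro i hi
    rw [← e1 i hi]
    exact h1 i hi
  · refine ⟨i0, hi0, ?_⟩
    simp only [e1 i0 hi0] at h3
    exact ⟨_, h3⟩
  · simp only [e2] at h5
    exact ⟨_, h5⟩

end Pool.Agent.H901.Q2
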