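import Pool.Agent.H901.Q2.Stm
import Pool.Graph.R_pool_sql_team_ae5b0c61.H64.Psi1

/-!
# Project Q2, part SPR: Springer's theorem
-/

set_option autoImplicit false

namespace Pool.Agent.H901.Q2

open Finset Polynomial Pool.Agent.H901 Pool.Agent.H901.Q

namespace SPRAux

theorem gq_fin {R : Type*} [CommRing R] (g : ℕ → ℕ → R) (m : ℕ) (z : ℕ → R) :
    gq g m z = ∑ i : Fin m, ∑ j : Fin m, g i j * (z i * z j) := by
  unfold gq
  rw [Finset.sum_range]
  refine Finset.sum_congr rfl fun i _ => ?_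
  rw [Finset.sum_range]

end SPRAux

theorem spr : S_SPR := by
  intro F _ _ m g _ ⟨E, _, _, hodd, z, ⟨i, hi, hzi⟩, hz⟩
  have hfin : FiniteDimensional F E := Module.finite_of_finrank_pos hodd.pos
  have h0 := hz 0 (by norm_num)
  rw [SPRAux.gq_fin] at h0
  obtain ⟨c, hc, hc0⟩ := H64.Psi.springer hodd (fun i j : Fin m => g i j) (fun i : Fin m => z i)
    (fun h => hzi (congrFun h ⟨i, hi⟩)) h0
  obtain ⟨k, hk⟩ : ∃ k, c k ≠ 0 := by
    by_contra hcon
    push Not at hcon
    exact hc (funext hcon)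
  refine ⟨fun n => if h : n < m then c ⟨n, h⟩ else 0, ⟨k, k.2, ?_⟩, ?_⟩
  · simp only [Fin.is_lt, dif_pos]
    exact hk
  · rw [SPRAux.gq_fin, ← hc0]
    refine Finset.sum_congr rfl fun i _ => Finset.sum_congr rfl fun j _ => ?_
    simp only [Fin.is_lt, dif_pos]

end Pool.Agent.H901.Q2
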