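import Pool.Agent.H901.Q2.Stm

/-! Project Q2 (helper901), part SUBU (helper225): the substitution for codes is primitive recursive
uniformly in `N`, `m`. -/

set_option autoImplicit false

namespace Pool.Agent.H901.Q2

open Pool.Agent.H901 Pool.Agent.H901.Q

namespace SUBUAux

theorem prim_pow : Primrec₂ (fun a b : ℕ => a ^ b) := Primrec₂.unpaired'.1 Nat.Primrec.pow

theorem prim_pow2 {α : Type*} [Primcodable α] {f : α → ℕ} (hf : Primrec f) :
    Primrec (fun x => 2 ^ f x) := prim_pow.comp (Primrec.const 2) hf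

/-! ### the digits -/

/-- one step downwards: `p = (remaining number, digits so far)` -/
def stp (N s : ℕ) (p : ℕ × List ℕ) : ℕ × List ℕ :=
  if p.1 < 2 ^ (N - 1 - s) then p else (p.1 - 2 ^ (N - 1 - s), p.2 ++ [N - 1 - s])

/-- the state after `s` steps -/
def st (N l : ℕ) (s : ℕ) : ℕ × List ℕ :=
  Nat.rec (l, []) (fun s p => stp N s p) s

theorem st_zero (N l : ℕ) : st N l 0 = (l, []) := rfl

theorem st_succ (N l s : ℕ) : st N l (s + 1) = stp N s (st N l s) := rfl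

theorem pl_st (N l : ℕ) : ∀ s, s ≤ N → pl N l = (st N l s).2 ++ pl (N - s) (st N l s).1 := by
  intro s
  induction s with
  | zero => intro _; rw [st_zero]; simp
  | succ s ih =>
    intro hs
    have ih' := ih (by omega)
    rw [st_succ]
    have e1 : N - s = (N - (s + 1)) + 1 := by omega
    have e2 : N - 1 - s = N - (s + 1) := by omega
    rw [e1] at ih'
    unfold stp
    rw [e2]
    rw [ih', pl]
    by_cases h : (st N l s).1 < 2 ^ (N - (s + 1))
    · rw [if_pos h, if_pos h]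
    · rw [if_neg h, if_neg h]
      simp

theorem pl_eq (N l : ℕ) : pl N l = (st N l N).2 := by
  rw [pl_st N l N le_rfl, Nat.sub_self]
  simp [pl]

theorem prim_st : Primrec (fun x : ℕ × ℕ => st x.1 x.2 x.1) := by
  have hg : Primrec₂ (fun (x : ℕ × ℕ) (q : ℕ × (ℕ × List ℕ)) => stp x.1 q.1 q.2) := by
    have he : Primrec (fun y : (ℕ × ℕ) × (ℕ × (ℕ × List ℕ)) => y.1.1 - 1 - y.2.1) :=
      Primrec.nat_sub.comp (Primrec.nat_sub.comp (Primrec.fst.comp Primrec.fst) (Primrec.const 1))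
        (Primrec.fst.comp Primrec.snd)
    have hp : Primrec (fun y : (ℕ × ℕ) × (ℕ × (ℕ × List ℕ)) => y.2.2) :=
      Primrec.snd.comp Primrec.snd
    have hp1 : Primrec (fun y : (ℕ × ℕ) × (ℕ × (ℕ × List ℕ)) => y.2.2.1) := Primrec.fst.comp hp
    have hp2 : Primrec (fun y : (ℕ × ℕ) × (ℕ × (ℕ × List ℕ)) => y.2.2.2) := Primrec.snd.comp hp
    have hpw := prim_pow2 he
    have h1 : Primrec (fun y : (ℕ × ℕ) × (ℕ × (ℕ × List ℕ)) => stp y.1.1 y.2.1 y.2.2) := by
      unfold stp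
      refine Primrec.ite (Primrec.nat_lt.comp hp1 hpw) hp ?_
      exact Primrec.pair (Primrec.nat_sub.comp hp1 hpw)
        (Primrec.list_append.comp hp2 (Primrec.list_cons.comp he (Primrec.const [])))
    exact h1
  have h2 : Primrec (fun x : ℕ × ℕ => ((x.2, []) : ℕ × List ℕ)) :=
    Primrec.pair Primrec.snd (Primrec.const [])
  exact Primrec.nat_rec' (f := fun x : ℕ × ℕ => x.1) (g := fun x : ℕ × ℕ => ((x.2, []) : ℕ × List ℕ))
    (h := fun (x : ℕ × ℕ) (q : ℕ × (ℕ × List ℕ)) => stp x.1 q.1 q.2) Primrec.fst h2 hg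

theorem prim_pl : Primrec₂ pl := by
  have h : Primrec (fun x : ℕ × ℕ => (st x.1 x.2 x.1).2) := Primrec.snd.comp prim_st
  exact Primrec₂.of_eq (f := fun a b => (st a b a).2) h (fun a b => (pl_eq a b).symm)

/-! ### the monomials -/

theorem prim_gm : Primrec (fun x : ℕ × (ℕ × ℕ) => gm x.1 x.2.1 x.2.2) := by
  unfold gm
  have hr : Primrec (fun x : ℕ × (ℕ × ℕ) => List.range (2 ^ x.1)) :=
    Primrec.list_range.comp (prim_pow2 Primrec.fst)
  have hg : Primrec₂ (fun (x : ℕ × (ℕ × ℕ)) (l : ℕ) =>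
      pl x.1 l ++ [x.1 + x.2.1 * 2 ^ x.1 + l, x.1 + x.2.2 * 2 ^ x.1 + l]) := by
    have hN : Primrec (fun y : (ℕ × (ℕ × ℕ)) × ℕ => y.1.1) := Primrec.fst.comp Primrec.fst
    have hi : Primrec (fun y : (ℕ × (ℕ × ℕ)) × ℕ => y.1.2.1) :=
      Primrec.fst.comp (Primrec.snd.comp Primrec.fst)
    have hj : Primrec (fun y : (ℕ × (ℕ × ℕ)) × ℕ => y.1.2.2) :=
      Primrec.snd.comp (Primrec.snd.comp Primrec.fst)
    have hl : Primrec (fun y : (ℕ × (ℕ × ℕ)) × ℕ => y.2) := Primrec.snd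
    have h1 : Primrec (fun y : (ℕ × (ℕ × ℕ)) × ℕ => pl y.1.1 y.2) := prim_pl.comp hN hl
    have h2 : Primrec (fun y : (ℕ × (ℕ × ℕ)) × ℕ => y.1.1 + y.1.2.1 * 2 ^ y.1.1 + y.2) :=
      Primrec.nat_add.comp (Primrec.nat_add.comp hN (Primrec.nat_mul.comp hi (prim_pow2 hN))) hl
    have h3 : Primrec (fun y : (ℕ × (ℕ × ℕ)) × ℕ => y.1.1 + y.1.2.2 * 2 ^ y.1.1 + y.2) :=
      Primrec.nat_add.comp (Primrec.nat_add.comp hN (Primrec.nat_mul.comp hj (prim_pow2 hN))) hl
    exact Primrec.list_append.comp h1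
      (Primrec.list_cons.comp h2 (Primrec.list_cons.comp h3 (Primrec.const [])))
  exact Primrec.list_map hr hg

theorem prim_tri : Primrec tri := by
  unfold tri
  have h1 : Primrec (fun m : ℕ => List.range m) := Primrec.list_range
  have h2 : Primrec₂ (fun (_ : ℕ) (j : ℕ) => (List.range (j + 1)).map (fun i => (i, j))) := by
    have h3 : Primrec (fun y : ℕ × ℕ => List.range (y.2 + 1)) :=
      Primrec.list_range.comp (Primrec.succ.comp Primrec.snd)
    have h4 : Primrec₂ (fun (y : ℕ × ℕ) (i : ℕ) => (i, y.2)) :=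
      Primrec.pair Primrec.snd (Primrec.snd.comp Primrec.fst)
    exact Primrec.list_map h3 h4
  exact Primrec.list_flatMap h1 h2

theorem prim_MM : Primrec (fun m : ℕ => MM m) := by
  unfold MM
  exact Primrec.nat_div.comp (Primrec.nat_mul.comp Primrec.id Primrec.succ) (Primrec.const 2)

/-- `x = (m, N)` as in the task -/
theorem prim_mon : Primrec (fun x : (ℕ × ℕ) × ℕ => mon x.1.2 x.1.1 x.2) := by
  unfold mon
  have hm : Primrec (fun x : (ℕ × ℕ) × ℕ => x.1.1) := Primrec.fst.comp Primrec.fst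
  have hN : Primrec (fun x : (ℕ × ℕ) × ℕ => x.1.2) := Primrec.snd.comp Primrec.fst
  have hl : Primrec (fun x : (ℕ × ℕ) × ℕ => x.2) := Primrec.snd
  have hM : Primrec (fun x : (ℕ × ℕ) × ℕ => MM x.1.1) := prim_MM.comp hm
  refine Primrec.ite (Primrec.nat_lt.comp hl hM) ?_ ?_
  · have h1 : Primrec (fun x : (ℕ × ℕ) × ℕ => tri x.1.1) := prim_tri.comp hm
    have h2 : Primrec₂ (fun (x : (ℕ × ℕ) × ℕ) (q : ℕ × ℕ) => gm x.1.2 q.1 q.2) := by
      have h3 : Primrec (fun y : ((ℕ × ℕ) × ℕ) × (ℕ × ℕ) => (y.1.1.2, y.2)) :=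
        Primrec.pair (hN.comp Primrec.fst) Primrec.snd
      exact prim_gm.comp h3
    exact (Primrec.list_getD ([] : List (List ℕ))).comp (Primrec.list_map h1 h2) hl
  · have h1 : Primrec (fun x : (ℕ × ℕ) × ℕ => x.1.2 + x.1.1 * 2 ^ x.1.2 + (x.2 - MM x.1.1)) :=
      Primrec.nat_add.comp (Primrec.nat_add.comp hN (Primrec.nat_mul.comp hm (prim_pow2 hN)))
        (Primrec.nat_sub.comp hl hM)
    exact Primrec.list_cons.comp (Primrec.list_cons.comp h1 (Primrec.const [])) (Primrec.const [])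

theorem prim_expand : Primrec (fun x : (ℕ × ℕ) × List ℕ => expand x.1.2 x.1.1 x.2) := by
  unfold expand
  have hh : Primrec₂ (fun (x : (ℕ × ℕ) × List ℕ) (p : ℕ × List (List ℕ)) =>
      (mon x.1.2 x.1.1 p.1).flatMap (fun μ => p.2.map (fun ρ => μ ++ ρ))) := by
    have h1 : Primrec fun y : ((ℕ × ℕ) × List ℕ) × (ℕ × List (List ℕ)) =>
        mon y.1.1.2 y.1.1.1 y.2.1 := by
      have h0 : Primrec fun y : ((ℕ × ℕ) × List ℕ) × (ℕ × List (List ℕ)) => (y.1.1, y.2.1) :=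
        Primrec.pair (Primrec.fst.comp Primrec.fst) (Primrec.fst.comp Primrec.snd)
      exact prim_mon.comp h0
    have h2 : Primrec₂ fun (y : ((ℕ × ℕ) × List ℕ) × (ℕ × List (List ℕ))) (μ : List ℕ) =>
        y.2.2.map (fun ρ => μ ++ ρ) := by
      have h3 : Primrec fun z : (((ℕ × ℕ) × List ℕ) × (ℕ × List (List ℕ))) × List ℕ => z.1.2.2 :=
        Primrec.snd.comp (Primrec.snd.comp Primrec.fst)
      have h4 : Primrec₂ fun (z : (((ℕ × ℕ) × List ℕ) × (ℕ × List (List ℕ))) × List ℕ)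
          (ρ : List ℕ) => z.2 ++ ρ :=
        Primrec.list_append.comp (Primrec.snd.comp Primrec.fst) Primrec.snd
      exact Primrec.list_map h3 h4
    exact Primrec.list_flatMap h1 h2
  exact Primrec.list_foldr (f := fun x : (ℕ × ℕ) × List ℕ => x.2) (g := fun _ => [[]])
    (h := fun (x : (ℕ × ℕ) × List ℕ) (p : ℕ × List (List ℕ)) =>
      (mon x.1.2 x.1.1 p.1).flatMap (fun μ => p.2.map (fun ρ => μ ++ ρ))) Primrec.snd
    (Primrec.const _) hh

theorem prim_subst : Primrec (fun x : (ℕ × ℕ) × Poly => subst x.1.2 x.1.1 x.2) := by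
  unfold subst
  have h2 : Primrec₂ fun (x : (ℕ × ℕ) × Poly) (t : ℕ × List ℕ) =>
      (expand x.1.2 x.1.1 t.2).map (fun ρ => (t.1, ρ)) := by
    have h3 : Primrec fun y : ((ℕ × ℕ) × Poly) × (ℕ × List ℕ) => expand y.1.1.2 y.1.1.1 y.2.2 := by
      have h0 : Primrec fun y : ((ℕ × ℕ) × Poly) × (ℕ × List ℕ) => (y.1.1, y.2.2) :=
        Primrec.pair (Primrec.fst.comp Primrec.fst) (Primrec.snd.comp Primrec.snd)
      exact prim_expand.comp h0
    have h4 : Primrec₂ fun (y : ((ℕ × ℕ) × Poly) × (ℕ × List ℕ)) (ρ : List ℕ) => (y.2.1, ρ) :=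
      Primrec.pair (Primrec.fst.comp (Primrec.snd.comp Primrec.fst)) Primrec.snd
    exact Primrec.list_map h3 h4
  exact Primrec.list_flatMap Primrec.snd h2

end SUBUAux

open SUBUAux in
/-- The substitution is primitive recursive, uniformly in `N`, `m`. -/
theorem subu : S_SUBU := by
  unfold S_SUBU
  have hm : Primrec (fun x : (ℕ × ℕ) × ℕ × Poly => x.1.1) := Primrec.fst.comp Primrec.fst
  have hN : Primrec (fun x : (ℕ × ℕ) × ℕ × Poly => x.1.2) := Primrec.snd.comp Primrec.fst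
  have hn : Primrec (fun x : (ℕ × ℕ) × ℕ × Poly => x.2.1) := Primrec.fst.comp Primrec.snd
  have h1 : Primrec (fun x : (ℕ × ℕ) × ℕ × Poly =>
      x.1.2 + x.1.1 * 2 ^ x.1.2 + (x.2.1 - MM x.1.1)) :=
    Primrec.nat_add.comp (Primrec.nat_add.comp hN (Primrec.nat_mul.comp hm (prim_pow2 hN)))
      (Primrec.nat_sub.comp hn (prim_MM.comp hm))
  have h2 : Primrec (fun x : (ℕ × ℕ) × ℕ × Poly => subst x.1.2 x.1.1 x.2.2) := by
    have h0 : Primrec (fun x : (ℕ × ℕ) × ℕ × Poly => (x.1, x.2.2)) :=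
      Primrec.pair Primrec.fst (Primrec.snd.comp Primrec.snd)
    exact prim_subst.comp h0
  exact Primrec.pair h1 h2

end Pool.Agent.H901.Q2
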