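import Pool.Agent.H901.Q.Stm
import Pool.Agent.H901.CMA

/-!
# Project Q2 (owner helper901, MP_1dc56d_ag): points of odd degree on all projective varieties

Statements of the self-contained parts. `gq g m z` (`Pool.Agent.H901.Q.Stm`) is the value at `z` of the
quadratic form with the Gram matrix `g` in the variables `z 0, …, z (m - 1)`.
-/

set_option autoImplicit false

namespace Pool.Agent.H901.Q2

open Finset Polynomial Pool.Agent.H901 Pool.Agent.H901.Q

/-- The quadratic forms with the Gram matrices `Q 0, …, Q (s - 1)` over `F` have a common nontrivial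
zero over `E`. -/
def CZ {F E : Type} [Field F] [Field E] (φ : F →+* E) (m s : ℕ) (Q : ℕ → ℕ → ℕ → F) : Prop :=
  ∃ z : ℕ → E, (∃ i < m, z i ≠ 0) ∧ ∀ j < s, gq (fun a b => φ (Q j a b)) m z = 0

/-- They have a common nontrivial zero over an extension of odd degree. -/
def OddPt {F : Type} [Field F] (m s : ℕ) (Q : ℕ → ℕ → ℕ → F) : Prop :=
  ∃ (E : Type) (_ : Field E) (_ : Algebra F E), Odd (Module.finrank F E) ∧
    CZ (algebraMap F E) m s Q

/-! ### part SPR: Springer's theorem -/

/-- A quadratic form with a nontrivial zero over an extension of odd degree has a nontrivial zero. -/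
def S_SPR : Prop :=
  ∀ (F : Type) [Field F] [CharZero F] (m : ℕ) (g : ℕ → ℕ → F), (∀ i j, g i j = g j i) →
    OddPt m 1 (fun _ => g) → ∃ z : ℕ → F, (∃ i < m, z i ≠ 0) ∧ gq g m z = 0

/-! ### part LIFT: extensions of odd degree over a larger field -/

/-- An extension of odd degree of `K` embeds in an extension of odd degree of `K2 ⊇ K`. -/
def S_LIFT : Prop :=
  ∀ (K K2 E : Type) [Field K] [CharZero K] [Field K2] [Field E] [Algebra K K2] [Algebra K E],
    Odd (Module.finrank K E) →
    ∃ (E2 : Type) (_ : Field E2) (_ : Algebra K2 E2) (ψ : E →+* E2), Odd (Module.finrank K2 E2) ∧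
      ∀ x : K, ψ (algebraMap K E x) = algebraMap K2 E2 (algebraMap K K2 x)

/-! ### part PLACE: a place of odd degree -/

/-- Let `L` be a finite extension of `K(X)`, and let `w` be an additive weight for the polynomials
such that irreducible polynomials of odd weight have odd degree. If `f = gq g m z ∈ L` is not zero and
the norm of `f` has an odd weight, then there is a place `φ` of `L`, with values in an extension `E` of
odd degree of `K`, which is finite at `X`, and `c ∈ L`, such that the `c * z i` are finite and not all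
zero at `φ`, but `c ^ 2 * f` is zero at `φ`. (Let `R` be the integral closure of `K[X]` in `L`,
`z i ∈ R`, `I` the ideal of the `z i`. Then `f ∈ I ^ 2`, `(f) = I ^ 2 * J`, and the norm of `J` has
an odd weight, and so there is a prime `P ∣ J` with odd degree.) -/
def S_PLACE : Prop :=
  ∀ (K L : Type) [Field K] [CharZero K] [Field L] [Algebra K L] [Algebra (RatFunc K) L]
    [IsScalarTower K (RatFunc K) L] [FiniteDimensional (RatFunc K) L] (w : K[X] → ℕ),
    (∀ f g : K[X], f ≠ 0 → g ≠ 0 → w (f * g) = w f + w g) →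
    (∀ p : K[X], Irreducible p → Odd (w p) → Odd p.natDegree) →
    ∀ (m : ℕ) (z : ℕ → L) (g : ℕ → ℕ → K),
      gq (fun i j => algebraMap K L (g i j)) m z ≠ 0 →
      Odd (w (Algebra.norm (RatFunc K) (gq (fun i j => algebraMap K L (g i j)) m z)).num +
        w (Algebra.norm (RatFunc K) (gq (fun i j => algebraMap K L (g i j)) m z)).denom) →
      ∃ (E : Type) (_ : Field E) (_ : Algebra K E) (O : Subalgebra K L) (φ : O →ₐ[K] E) (c : L),
        Odd (Module.finrank K E) ∧ algebraMap (RatFunc K) L RatFunc.X ∈ O ∧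
        (∀ i < m, c * z i ∈ O) ∧ (∃ i < m, ∃ h : c * z i ∈ O, φ ⟨c * z i, h⟩ ≠ 0) ∧
        ∃ h : c ^ 2 * gq (fun i j => algebraMap K L (g i j)) m z ∈ O,
          φ ⟨c ^ 2 * gq (fun i j => algebraMap K L (g i j)) m z, h⟩ = 0

/-! ### part CURVE: one step of the theorem of Colliot-Thélène and Levine -/

/-- If the forms `Q j` and `A + X B` have a common nontrivial zero over an extension of odd degree of
`K(X)`, then the forms `Q j`, `A` and `B` have a common nontrivial zero over an extension of odd degree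
of `K`. (Let `N` be the norm to `K(X)`. If `B(z) = 0` take any place of odd degree. If the degree of
`N(B(z))` is odd, apply PLACE to `f = B(z)` and the weight `natDegree`. If it is even, then the degree
of `N(A(z)) = N(- X B(z))` is odd; apply PLACE to `f = A(z)`, with `1 / X` instead of `X`, and the
weight `natTrailingDegree`.) -/
def S_CURVE : Prop :=
  ∀ (K L : Type) [Field K] [CharZero K] [Field L] [Algebra (RatFunc K) L] (m s : ℕ)
    (Q : ℕ → ℕ → ℕ → K) (A B : ℕ → ℕ → K), Odd (Module.finrank (RatFunc K) L) →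
    (∃ z : ℕ → L, (∃ i < m, z i ≠ 0) ∧
      (∀ j < s, gq (fun a b => algebraMap (RatFunc K) L (RatFunc.C (Q j a b))) m z = 0) ∧
      gq (fun a b => algebraMap (RatFunc K) L
        (RatFunc.C (A a b) + RatFunc.X * RatFunc.C (B a b))) m z = 0) →
    ∃ (E : Type) (_ : Field E) (_ : Algebra K E), Odd (Module.finrank K E) ∧
      ∃ z : ℕ → E, (∃ i < m, z i ≠ 0) ∧
        (∀ j < s, gq (fun a b => algebraMap K E (Q j a b)) m z = 0) ∧
        gq (fun a b => algebraMap K E (A a b)) m z = 0 ∧
        gq (fun a b => algebraMap K E (B a b)) m z = 0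

/-! ### part VER: all projective varieties are intersections of quadrics -/

/-- For every system of homogeneous polynomials there is a system of quadratic forms which has a
common nontrivial zero over exactly the same extension fields. (Variables `y_α` for the monomials `α`
of degree `e`, where `2 e ≥ d i` for all `i`; the equations `y_α y_β = y_γ y_δ` for `α + β = γ + δ` and
`x ^ μ * G i = 0`, `|μ| = 2 e - d i`, written in the `y_α`.) -/
def S_VER : Prop :=
  ∀ (r l : ℕ) (d : ℕ → ℕ), (∀ i < l, 0 < d i) → ∃ m s : ℕ, 2 ≤ m ∧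
    ∀ (F : Type) [Field F] [CharZero F] (G : ℕ → MvPolynomial (Fin (r + 1)) F),
      (∀ i < l, (G i).IsHomogeneous (d i)) →
      ∃ Q : ℕ → ℕ → ℕ → F, (∀ j a b, Q j a b = Q j b a) ∧ ∀ (E : Type) [Field E] (φ : F →+* E),
        (∃ x : Fin (r + 1) → E, x ≠ 0 ∧ ∀ i < l, MvPolynomial.eval₂ φ x (G i) = 0) ↔
          CZ φ m (s + 1) Q

/-! ### parts LST, FSU and SUBU: uniform computability -/

/-- The integral polynomials `g1 i`, `g2 i` (`Pool.Agent.H901.CMA`) are given by primitive recursive
lists. -/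
def S_LST : Prop :=
  ∃ L1 L2 : ℕ → IPoly, Primrec L1 ∧ Primrec L2 ∧ ∀ i : ℕ,
    (∀ t ∈ L1 i, ∀ j ∈ t.2, j < i + 3 + 2 * 2 ^ i) ∧
    (∀ t ∈ L2 i, ∀ j ∈ t.2, j < i + 3 + 2 * 2 ^ i) ∧
    ∀ (B : Type) [CommRing B] (ξ : ℕ → B), iev ξ (L1 i) = g1 i ξ ∧ iev ξ (L2 i) = g2 i ξ

/-- the system `fsys` with given lists -/
def fsysU (L1 L2 : ℕ → IPoly) (u u' i : ℕ) (q : ℕ × Poly) : Sys :=
  (q.1 + 6 + 2 * 2 ^ i + 2 * dgb q.2,
    [inst u u' (tau i q.1) (L1 i), inst u u' (tau i q.1) (L2 i),
      [(u, [q.1 + 4 + 2 * 2 ^ i]), (u', [])], [(u, [q.1 + 5 + 2 * 2 ^ i])],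
      yeq i u' q.1 0 q.2, yeq i u' q.1 1 q.2] ++
    ((List.range (dgb q.2)).map (fun e => aeq i u u' q.1 e) ++
      (List.range (dgb q.2)).map (fun e => beq i u u' q.1 e)))

/-- It is primitive recursive, uniformly in `i`. -/
def S_FSU : Prop :=
  ∀ (L1 L2 : ℕ → IPoly) (u u' : ℕ), Primrec L1 → Primrec L2 →
    Primrec (fun x : ℕ × ℕ × Poly => fsysU L1 L2 u u' x.1 x.2)

/-- The substitution is primitive recursive, uniformly in `N`, `m`. -/
def S_SUBU : Prop :=
  Primrec (fun x : (ℕ × ℕ) × ℕ × Poly =>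
    (x.1.2 + x.1.1 * 2 ^ x.1.2 + (x.2.1 - MM x.1.1), subst x.1.2 x.1.1 x.2.2))

end Pool.Agent.H901.Q2
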