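import Pool.Agent.H901.Q2.Stm

/-!
Project Q2, part VER: every projective variety is an intersection of quadrics (Veronese).
-/

set_option autoImplicit false

namespace Pool.Agent.H901.Q2

open Finset Pool.Agent.H901 Pool.Agent.H901.Q

namespace VERAux

/-! ### exponent vectors -/

section vec

variable {n : ℕ}

/-- exponent vectors of degree `e` -/
noncomputable def Av (n e : ℕ) : Finset (Fin n →₀ ℕ) := finsuppAntidiag univ e

theorem mem_Av {e : ℕ} {α : Fin n →₀ ℕ} : α ∈ Av n e ↔ ∑ i, α i = e := by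
  unfold Av
  rw [mem_finsuppAntidiag]
  exact ⟨fun h => h.1, fun h => ⟨h, subset_univ _⟩⟩

theorem sum_single (i : Fin n) (k : ℕ) : ∑ j, (Finsupp.single i k) j = k := by
  rw [Finset.sum_eq_single i]
  · exact Finsupp.single_eq_same
  · intro j _ hj
    exact Finsupp.single_eq_of_ne hj
  · intro h
    exact absurd (mem_univ i) h

theorem sum_add (α β : Fin n →₀ ℕ) : ∑ j, (α + β) j = ∑ j, α j + ∑ j, β j := by
  simp only [Finsupp.add_apply, sum_add_distrib]

/-- removing a letter -/
theorem pull {e : ℕ} {α : Fin n →₀ ℕ} (h : ∑ i, α i = e + 1) {i : Fin n} (hi : α i ≠ 0) :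
    ∃ γ : Fin n →₀ ℕ, α = γ + Finsupp.single i 1 ∧ ∑ i, γ i = e := by
  have h1 : α = (α - Finsupp.single i 1) + Finsupp.single i 1 := by
    ext j
    rw [Finsupp.add_apply, Finsupp.tsub_apply]
    by_cases hj : j = i
    · subst hj
      rw [Finsupp.single_eq_same]
      omega
    · rw [Finsupp.single_eq_of_ne hj]
      omega
  refine ⟨α - Finsupp.single i 1, h1, ?_⟩
  have h2 := sum_add (α - Finsupp.single i 1) (Finsupp.single i 1)
  rw [← h1, h, sum_single] at h2
  omega

/-- splitting an exponent vector -/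
theorem split : ∀ (a b : ℕ) (τ : Fin n →₀ ℕ), ∑ i, τ i = a + b →
    ∃ α β : Fin n →₀ ℕ, α + β = τ ∧ ∑ i, α i = a ∧ ∑ i, β i = b := by
  intro a
  induction a with
  | zero =>
    intro b τ h
    exact ⟨0, τ, zero_add τ, by simp, by rw [h, zero_add]⟩
  | succ a ih =>
    intro b τ h
    obtain ⟨α, β, h1, h2, h3⟩ := ih (b + 1) τ (by rw [h]; ring)
    obtain ⟨i, hi⟩ : ∃ i, β i ≠ 0 := by
      by_contra hc
      push Not at hc
      rw [Finset.sum_eq_zero fun i _ => hc i] at h3
      omega
    obtain ⟨γ, h4, h5⟩ := pull h3 hi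
    refine ⟨α + Finsupp.single i 1, γ, ?_, ?_, h5⟩
    · rw [← h1, h4]
      abel
    · rw [sum_add, h2, sum_single]

/-- the value of a monomial -/
def mnm {E : Type} [Field E] (x : Fin n → E) (α : Fin n →₀ ℕ) : E := ∏ i, x i ^ α i

variable {E : Type} [Field E] (x : Fin n → E)

theorem mnm_add (α β : Fin n →₀ ℕ) : mnm x (α + β) = mnm x α * mnm x β := by
  unfold mnm
  rw [← prod_mul_distrib]
  exact prod_congr rfl fun i _ => by rw [Finsupp.add_apply, pow_add]

theorem mnm_single (i : Fin n) (k : ℕ) : mnm x (Finsupp.single i k) = x i ^ k := by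
  unfold mnm
  rw [Finset.prod_eq_single i]
  · rw [Finsupp.single_eq_same]
  · intro j _ hj
    rw [Finsupp.single_eq_of_ne hj, pow_zero]
  · intro h
    exact absurd (mem_univ i) h

end vec

/-! ### points of the Veronese variety -/

section point

variable {n : ℕ} {E : Type} [Field E]

/-- The points of the Veronese variety. -/
theorem veronese {e : ℕ} {Y : (Fin n →₀ ℕ) → E} (h0 : ∃ α, ∑ i, α i = e + 1 ∧ Y α ≠ 0)
    (hrel : ∀ γ δ : Fin n →₀ ℕ, ∑ i, γ i = e → ∑ i, δ i = e → ∀ i j : Fin n,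
      Y (γ + Finsupp.single i 1) * Y (δ + Finsupp.single j 1) =
        Y (γ + Finsupp.single j 1) * Y (δ + Finsupp.single i 1)) :
    ∃ (k : Fin n) (c : E) (x : Fin n → E), c ≠ 0 ∧ x k = 1 ∧
      ∀ α : Fin n →₀ ℕ, ∑ i, α i = e + 1 → Y α = c * mnm x α := by
  classical
  -- a nonzero coordinate with a maximal entry
  obtain ⟨α₀, hα₀, hY₀⟩ := h0
  have hex : ∃ (k : Fin n), Y (Finsupp.single k (e + 1)) ≠ 0 := by
    have key : ∀ r : ℕ, r ≤ e → ∃ (α : Fin n →₀ ℕ) (k : Fin n), ∑ i, α i = e + 1 ∧ Y α ≠ 0 ∧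
        r < α k := by
      intro r
      induction r with
      | zero =>
        intro _
        obtain ⟨k, hk⟩ : ∃ k, α₀ k ≠ 0 := by
          by_contra hc
          push Not at hc
          rw [Finset.sum_eq_zero fun i _ => hc i] at hα₀
          omega
        exact ⟨α₀, k, hα₀, hY₀, Nat.pos_of_ne_zero hk⟩
      | succ r ih =>
        intro hr
        obtain ⟨α, k, h1, h2, h3⟩ := ih (by omega)
        by_cases h4 : r + 1 < α k
        · exact ⟨α, k, h1, h2, h4⟩
        have h5 : α k = r + 1 := by omega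
        obtain ⟨j, hjk, hj⟩ : ∃ j, j ≠ k ∧ α j ≠ 0 := by
          by_contra hc
          push Not at hc
          rw [Finset.sum_eq_single k (fun j _ hj => hc j hj)
            (fun h => absurd (mem_univ k) h)] at h1
          omega
        obtain ⟨γ, hγ, hγs⟩ := pull h1 hj
        obtain ⟨δ, hδ, hδs⟩ := pull h1 (i := k) (by omega)
        have h6 := hrel γ δ hγs hδs j k
        rw [← hγ, ← hδ] at h6
        have h7 : Y (γ + Finsupp.single k 1) ≠ 0 := by
          intro h8
          rw [h8, zero_mul] at h6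
          exact h2 (mul_self_eq_zero.1 h6)
        refine ⟨γ + Finsupp.single k 1, k, ?_, h7, ?_⟩
        · rw [sum_add, hγs, sum_single]
        · have h8 : γ k = α k := by
            rw [hγ, Finsupp.add_apply, Finsupp.single_eq_of_ne hjk.symm, add_zero]
          rw [Finsupp.add_apply, Finsupp.single_eq_same, h8, h5]
          omega
    obtain ⟨α, k, h1, h2, h3⟩ := key e le_rfl
    refine ⟨k, ?_⟩
    have h4 : α = Finsupp.single k (e + 1) := by
      have h5 : α k ≤ ∑ i, α i := Finset.single_le_sum (fun _ _ => Nat.zero_le _) (mem_univ k)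
      have h6 : α k = e + 1 := by omega
      ext j
      by_cases hj : j = k
      · subst hj
        rw [Finsupp.single_eq_same, h6]
      · rw [Finsupp.single_eq_of_ne hj]
        by_contra hc
        have h7 : α j + α k ≤ ∑ i, α i := by
          rw [← Finset.add_sum_erase _ _ (mem_univ k)]
          have h8 : α j ≤ ∑ i ∈ univ.erase k, α i :=
            Finset.single_le_sum (fun _ _ => Nat.zero_le _) (mem_erase.2 ⟨hj, mem_univ j⟩)
          omega
        omega
    rwa [h4] at h2
  obtain ⟨k, hk⟩ := hex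
  obtain ⟨c, hc⟩ : ∃ c, c = Y (Finsupp.single k (e + 1)) := ⟨_, rfl⟩
  have hek : Finsupp.single k (e + 1) = Finsupp.single k e + Finsupp.single k 1 := by
    rw [← Finsupp.single_add]
  refine ⟨k, c, fun j => Y (Finsupp.single k e + Finsupp.single j 1) / c, by rw [hc]; exact hk,
    ?_, ?_⟩
  · show Y (Finsupp.single k e + Finsupp.single k 1) / c = 1
    rw [← hek, ← hc]
    exact div_self (by rw [hc]; exact hk)
  · have hc0 : c ≠ 0 := by rw [hc]; exact hk
    have key : ∀ r : ℕ, ∀ α : Fin n →₀ ℕ, ∑ i, α i = e + 1 → e + 1 - α k = r →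
        Y α = c * mnm (fun j => Y (Finsupp.single k e + Finsupp.single j 1) / c) α := by
      intro r
      induction r with
      | zero =>
        intro α h1 h2
        have h5 : α k ≤ ∑ i, α i := Finset.single_le_sum (fun _ _ => Nat.zero_le _) (mem_univ k)
        have h6 : α k = e + 1 := by omega
        have h4 : α = Finsupp.single k (e + 1) := by
          ext j
          by_cases hj : j = k
          · subst hj
            rw [Finsupp.single_eq_same, h6]
          · rw [Finsupp.single_eq_of_ne hj]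
            by_contra hc
            have h7 : α j + α k ≤ ∑ i, α i := by
              rw [← Finset.add_sum_erase _ _ (mem_univ k)]
              have h8 : α j ≤ ∑ i ∈ univ.erase k, α i :=
                Finset.single_le_sum (fun _ _ => Nat.zero_le _) (mem_erase.2 ⟨hj, mem_univ j⟩)
              omega
            omega
        rw [h4, mnm_single, ← hek, ← hc, div_self hc0, one_pow, mul_one]
      | succ r ih =>
        intro α h1 h2
        obtain ⟨j, hjk, hj⟩ : ∃ j, j ≠ k ∧ α j ≠ 0 := by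
          by_contra hc'
          push Not at hc'
          rw [Finset.sum_eq_single k (fun j _ hj => hc' j hj)
            (fun h => absurd (mem_univ k) h)] at h1
          omega
        obtain ⟨γ, hγ, hγs⟩ := pull h1 hj
        have h8 : γ k = α k := by
          rw [hγ, Finsupp.add_apply, Finsupp.single_eq_of_ne hjk.symm, add_zero]
        have h9 : ∑ i, (γ + Finsupp.single k 1 : Fin n →₀ ℕ) i = e + 1 := by
          rw [sum_add, hγs, sum_single]
        have h10 := ih (γ + Finsupp.single k 1) h9 (by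
          rw [Finsupp.add_apply, Finsupp.single_eq_same, h8]
          omega)
        have h6 := hrel γ (Finsupp.single k e) hγs (sum_single k e) j k
        rw [← hγ, ← hek, ← hc, h10] at h6
        have h11 : Y (Finsupp.single k e + Finsupp.single k 1) / c = 1 := by
          rw [← hek, ← hc, div_self hc0]
        rw [mnm_add, mnm_single, pow_one, h11, mul_one] at h6
        have h12 : Y α = (Y α * c) / c := by rw [mul_div_cancel_right₀ _ hc0]
        rw [h12, h6, hγ, mnm_add, mnm_single, pow_one]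
        ring
    exact fun α hα => key _ α hα rfl

end point

/-! ### quadratic forms -/

section form

variable {F E : Type} [Field F] [Field E] (φ : F →+* E)

/-- the matrix of the form `∑ c t z (a t) z (b t)` -/
def qf {ι : Type} (T : Finset ι) (c : ι → F) (a b : ι → ℕ) : ℕ → ℕ → F := fun i j =>
  ∑ t ∈ T, if i = a t ∧ j = b t then c t else 0

theorem gq_qf {ι : Type} {m : ℕ} (T : Finset ι) (c : ι → F) (a b : ι → ℕ)
    (ha : ∀ t ∈ T, a t < m) (hb : ∀ t ∈ T, b t < m) (z : ℕ → E) :
    gq (fun i j => φ (qf T c a b i j)) m z = ∑ t ∈ T, φ (c t) * (z (a t) * z (b t)) := by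
  unfold gq qf
  have h1 : ∀ i j, φ (∑ t ∈ T, if i = a t ∧ j = b t then c t else 0) * (z i * z j) =
      ∑ t ∈ T, (if i = a t ∧ j = b t then φ (c t) * (z i * z j) else 0) := by
    intro i j
    rw [map_sum, sum_mul]
    refine sum_congr rfl fun t _ => ?_
    split_ifs
    · rfl
    · rw [map_zero, zero_mul]
  simp only [h1]
  have h2 : ∀ i, ∑ j ∈ range m, ∑ t ∈ T,
      (if i = a t ∧ j = b t then φ (c t) * (z i * z j) else 0) =
      ∑ t ∈ T, ∑ j ∈ range m, (if i = a t ∧ j = b t then φ (c t) * (z i * z j) else 0) :=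
    fun i => sum_comm
  simp only [h2]
  rw [sum_comm]
  refine sum_congr rfl fun t ht => ?_
  rw [Finset.sum_eq_single (a t)]
  · rw [Finset.sum_eq_single (b t)]
    · rw [if_pos ⟨rfl, rfl⟩]
    · intro j _ hj
      rw [if_neg fun h => hj h.2]
    · intro h
      exact absurd (mem_range.2 (hb t ht)) h
  · intro i _ hi
    refine sum_eq_zero fun j _ => ?_
    rw [if_neg fun h => hi h.1]
  · intro h
    exact absurd (mem_range.2 (ha t ht)) h

theorem gq_symf [CharZero F] (U : ℕ → ℕ → F) (m : ℕ) (z : ℕ → E) :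
    gq (fun i j => φ ((U i j + U j i) / 2)) m z = gq (fun i j => φ (U i j)) m z := by
  have h2 : (2 : E) ≠ 0 := by
    have h := (map_ne_zero φ).2 (two_ne_zero : (2 : F) ≠ 0)
    rwa [map_ofNat] at h
  have h1 : gq (fun i j => φ (U j i)) m z = gq (fun i j => φ (U i j)) m z := by
    unfold gq
    rw [sum_comm]
    refine sum_congr rfl fun i _ => sum_congr rfl fun j _ => ?_
    ring
  have h3 : gq (fun i j => φ ((U i j + U j i) / 2)) m z =
      (gq (fun i j => φ (U i j)) m z + gq (fun i j => φ (U j i)) m z) / 2 := by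
    unfold gq
    rw [← sum_add_distrib, sum_div]
    refine sum_congr rfl fun i _ => ?_
    rw [← sum_add_distrib, sum_div]
    refine sum_congr rfl fun j _ => ?_
    simp only
    rw [map_div₀, map_add, map_ofNat]
    ring
  rw [h3, h1, ← two_mul, mul_div_cancel_left₀ _ h2]

/-- systems indexed by a finite type -/
theorem sys [CharZero F] {J : Type} [Fintype J] (m : ℕ) (U : J → ℕ → ℕ → F) :
    ∃ (Q : ℕ → ℕ → ℕ → F), (∀ j a b, Q j a b = Q j b a) ∧
      ∀ (E : Type) [Field E] (φ : F →+* E), CZ φ m (Fintype.card J + 1) Q ↔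
        ∃ z : ℕ → E, (∃ i < m, z i ≠ 0) ∧ ∀ t, gq (fun a b => φ (U t a b)) m z = 0 := by
  classical
  obtain ⟨V, hV⟩ : ∃ V : ℕ → ℕ → ℕ → F, V = fun j => if h : j < Fintype.card J then
    U ((Fintype.equivFin J).symm ⟨j, h⟩) else fun _ _ => 0 := ⟨_, rfl⟩
  refine ⟨fun j a b => (V j a b + V j b a) / 2, fun j a b => by ring,
    fun E _ φ => ?_⟩
  unfold CZ
  constructor
  · rintro ⟨z, hz, h⟩
    refine ⟨z, hz, fun t => ?_⟩
    have h1 := h (Fintype.equivFin J t) (by omega)
    rw [gq_symf φ (V _)] at h1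
    have h2 : V (Fintype.equivFin J t) = U t := by
      rw [hV]
      show dite _ _ _ = _
      rw [dif_pos (Fintype.equivFin J t).2]
      congr 1
      exact (Fintype.equivFin J).symm_apply_apply t
    rwa [h2] at h1
  · rintro ⟨z, hz, h⟩
    refine ⟨z, hz, fun j _ => ?_⟩
    rw [gq_symf φ (V _)]
    by_cases hj : j < Fintype.card J
    · have h2 : V j = U ((Fintype.equivFin J).symm ⟨j, hj⟩) := by
        rw [hV]
        show dite _ _ _ = _
        rw [dif_pos hj]
      rw [h2]
      exact h _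
    · have h2 : V j = fun _ _ => 0 := by
        rw [hV]
        show dite _ _ _ = _
        rw [dif_neg hj]
      rw [h2]
      unfold gq
      simp

end form

/-! ### numbering the exponent vectors -/

section numb

variable {n : ℕ}

/-- a numbering of the exponent vectors -/
theorem numbering (n e : ℕ) : ∃ (m0 : ℕ) (idx : (Fin n →₀ ℕ) → ℕ) (nth : ℕ → (Fin n →₀ ℕ)),
    (∀ α : Fin n →₀ ℕ, ∑ i, α i = e → idx α < m0 ∧ nth (idx α) = α) ∧
    ∀ k < m0, ∑ i, (nth k) i = e ∧ idx (nth k) = k := by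
  classical
  have eq := (Av n e).equivFin
  refine ⟨(Av n e).card, fun α => if h : α ∈ Av n e then (eq ⟨α, h⟩ : ℕ) else 0,
    fun k => if h : k < (Av n e).card then (eq.symm ⟨k, h⟩ : Fin n →₀ ℕ) else 0, ?_, ?_⟩
  · intro α hα
    have h : α ∈ Av n e := mem_Av.2 hα
    simp only [dif_pos h]
    have h1 : (eq ⟨α, h⟩ : ℕ) < (Av n e).card := (eq ⟨α, h⟩).2
    refine ⟨h1, ?_⟩
    rw [dif_pos h1]
    have h2 : (⟨(eq ⟨α, h⟩ : ℕ), h1⟩ : Fin (Av n e).card) = eq ⟨α, h⟩ := rfl
    rw [h2, Equiv.symm_apply_apply]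
  · intro k hk
    simp only [dif_pos hk]
    have h1 : (eq.symm ⟨k, hk⟩ : Fin n →₀ ℕ) ∈ Av n e := (eq.symm ⟨k, hk⟩).2
    refine ⟨mem_Av.1 h1, ?_⟩
    rw [dif_pos h1]
    have h2 : (⟨(eq.symm ⟨k, hk⟩ : Fin n →₀ ℕ), h1⟩ : {x // x ∈ Av n e}) = eq.symm ⟨k, hk⟩ := rfl
    rw [h2, Equiv.apply_symm_apply]

end numb

end VERAux

open VERAux

/-- **Every projective variety is an intersection of quadrics.** -/
theorem ver : S_VER := by
  classical
  intro r l d hd0
  -- the degree
  obtain ⟨e, he⟩ : ∃ e : ℕ, ∀ i < l, d i ≤ 2 * (e + 1) := by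
    refine ⟨∑ i ∈ range l, d i, fun i hi => ?_⟩
    have h1 : d i ≤ ∑ i ∈ range l, d i :=
      Finset.single_le_sum (f := d) (fun _ _ => Nat.zero_le _) (mem_range.2 hi)
    omega
  obtain ⟨m0, idx, nth, hidx, hnth⟩ := numbering (r + 1) (e + 1)
  -- decompositions
  have hsp : ∀ τ : Fin (r + 1) →₀ ℕ, ∃ αβ : (Fin (r + 1) →₀ ℕ) × (Fin (r + 1) →₀ ℕ),
      ∑ i, τ i = (e + 1) + (e + 1) →
        αβ.1 + αβ.2 = τ ∧ ∑ i, αβ.1 i = e + 1 ∧ ∑ i, αβ.2 i = e + 1 := by
    intro τ
    by_cases h : ∑ i, τ i = (e + 1) + (e + 1)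
    · obtain ⟨α, β, h1, h2, h3⟩ := split (e + 1) (e + 1) τ h
      exact ⟨(α, β), fun _ => ⟨h1, h2, h3⟩⟩
    · exact ⟨(0, 0), fun h' => absurd h' h⟩
  choose dc hdc using hsp
  have hm0 : 1 ≤ m0 := by
    have := (hidx (Finsupp.single 0 (e + 1)) (sum_single _ _)).1
    omega
  refine ⟨m0 + 1, Fintype.card (({x // x ∈ Av (r + 1) e} × {x // x ∈ Av (r + 1) e} ×
    Fin (r + 1) × Fin (r + 1)) ⊕ (Fin l × Fin (r + 1)) ⊕ Unit), by omega, ?_⟩
  intro F _ _ G hG
  have hdeg : ∀ t < l, ∀ ν ∈ (G t).support, ∀ k : Fin (r + 1),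
      ∑ i, (ν + Finsupp.single k (2 * (e + 1) - d t) : Fin (r + 1) →₀ ℕ) i = (e + 1) + (e + 1) := by
    intro t ht ν hν k
    have h1 : ν.degree = d t := by
      by_contra hc
      exact (MvPolynomial.mem_support_iff.1 hν) ((hG t ht).coeff_eq_zero hc)
    rw [Finsupp.degree_eq_sum] at h1
    rw [sum_add, h1, sum_single]
    have := he t ht
    omega
  -- the family
  obtain ⟨U, hU⟩ : ∃ U : (({x // x ∈ Av (r + 1) e} × {x // x ∈ Av (r + 1) e} ×
      Fin (r + 1) × Fin (r + 1)) ⊕ (Fin l × Fin (r + 1)) ⊕ Unit) → ℕ → ℕ → F, U = fun t =>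
      match t with
      | Sum.inl (γ, δ, i, j) => qf (univ : Finset Bool) (fun b => if b then 1 else -1)
          (fun b => if b then idx (γ.1 + Finsupp.single i 1) else idx (γ.1 + Finsupp.single j 1))
          (fun b => if b then idx (δ.1 + Finsupp.single j 1) else idx (δ.1 + Finsupp.single i 1))
      | Sum.inr (Sum.inl (t, k)) => qf (G t).support (fun ν => (G t).coeff ν)
          (fun ν => idx (dc (ν + Finsupp.single k (2 * (e + 1) - d t))).1)
          (fun ν => idx (dc (ν + Finsupp.single k (2 * (e + 1) - d t))).2)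
      | Sum.inr (Sum.inr _) => qf (univ : Finset Unit) (fun _ => 1) (fun _ => m0) (fun _ => m0) :=
    ⟨_, rfl⟩
  obtain ⟨Q, hQ, hs⟩ := sys (m0 + 1) U
  refine ⟨Q, hQ, fun E _ φ => ?_⟩
  rw [hs]
  -- the values of the forms
  have hadd : ∀ (γ : Fin (r + 1) →₀ ℕ) (i : Fin (r + 1)), ∑ i, γ i = e →
      ∑ j, (γ + Finsupp.single i 1 : Fin (r + 1) →₀ ℕ) j = e + 1 := by
    intro γ i h
    rw [sum_add, h, sum_single]
  have v1 : ∀ (γ δ : {x // x ∈ Av (r + 1) e}) (i j : Fin (r + 1)) (z : ℕ → E),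
      gq (fun a b => φ (U (Sum.inl (γ, δ, i, j)) a b)) (m0 + 1) z =
        z (idx (γ.1 + Finsupp.single i 1)) * z (idx (δ.1 + Finsupp.single j 1)) -
        z (idx (γ.1 + Finsupp.single j 1)) * z (idx (δ.1 + Finsupp.single i 1)) := by
    intro γ δ i j z
    have hγ := mem_Av.1 γ.2
    have hδ := mem_Av.1 δ.2
    have a1 := (hidx _ (hadd γ.1 i hγ)).1
    have a2 := (hidx _ (hadd γ.1 j hγ)).1
    have a3 := (hidx _ (hadd δ.1 i hδ)).1
    have a4 := (hidx _ (hadd δ.1 j hδ)).1
    rw [hU]
    refine (gq_qf φ _ _ _ _ (fun b _ => ?_) (fun b _ => ?_) z).trans ?_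
    · cases b
      · show idx _ < _
        exact a2.trans (Nat.lt_succ_self _)
      · show idx _ < _
        exact a1.trans (Nat.lt_succ_self _)
    · cases b
      · show idx _ < _
        exact a3.trans (Nat.lt_succ_self _)
      · show idx _ < _
        exact a4.trans (Nat.lt_succ_self _)
    · rw [Fintype.sum_bool]
      simp only [if_true, map_one, map_neg, one_mul, Bool.false_eq_true, if_false, neg_mul]
      ring
  have v2 : ∀ (t : Fin l) (k : Fin (r + 1)) (z : ℕ → E),
      gq (fun a b => φ (U (Sum.inr (Sum.inl (t, k))) a b)) (m0 + 1) z =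
        ∑ ν ∈ (G t).support, φ ((G t).coeff ν) *
          (z (idx (dc (ν + Finsupp.single k (2 * (e + 1) - d t))).1) *
            z (idx (dc (ν + Finsupp.single k (2 * (e + 1) - d t))).2)) := by
    intro t k z
    rw [hU]
    refine gq_qf φ _ _ _ _ (fun ν hν => ?_) (fun ν hν => ?_) z
    · have h := hdc _ (hdeg t t.2 ν hν k)
      exact (hidx _ h.2.1).1.trans (Nat.lt_succ_self _)
    · have h := hdc _ (hdeg t t.2 ν hν k)
      exact (hidx _ h.2.2).1.trans (Nat.lt_succ_self _)
  have v3 : ∀ (z : ℕ → E),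
      gq (fun a b => φ (U (Sum.inr (Sum.inr ())) a b)) (m0 + 1) z = z m0 * z m0 := by
    intro z
    rw [hU]
    refine (gq_qf φ _ _ _ _ (fun b _ => Nat.lt_succ_self _) (fun b _ => Nat.lt_succ_self _)
      z).trans ?_
    simp
  constructor
  · -- points of the Veronese variety
    rintro ⟨x, hx, hxG⟩
    obtain ⟨k, hk⟩ : ∃ k, x k ≠ 0 := by
      by_contra hc
      push Not at hc
      exact hx (funext hc)
    have hz : ∀ α : Fin (r + 1) →₀ ℕ, ∑ i, α i = e + 1 →
        (if idx α < m0 then mnm x (nth (idx α)) else 0) = mnm x α := by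
      intro α hα
      obtain ⟨h1, h2⟩ := hidx α hα
      rw [if_pos h1, h2]
    refine ⟨fun a => if a < m0 then mnm x (nth a) else 0, ?_, ?_⟩
    · have h1 := (hidx (Finsupp.single k (e + 1)) (sum_single _ _)).1
      refine ⟨idx (Finsupp.single k (e + 1)), by omega, ?_⟩
      simp only
      rw [hz _ (sum_single _ _), mnm_single]
      exact pow_ne_zero _ hk
    · rintro (⟨γ, δ, i, j⟩ | ⟨t, k'⟩ | ⟨⟩)
      · have hγ := mem_Av.1 γ.2
        have hδ := mem_Av.1 δ.2
        rw [v1]
        rw [hz _ (hadd γ.1 i hγ), hz _ (hadd γ.1 j hγ), hz _ (hadd δ.1 i hδ),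
          hz _ (hadd δ.1 j hδ), mnm_add, mnm_add, mnm_add, mnm_add]
        ring
      · rw [v2]
        have h1 : ∀ ν ∈ (G t).support, φ ((G t).coeff ν) *
            ((if idx (dc (ν + Finsupp.single k' (2 * (e + 1) - d t))).1 < m0 then
                mnm x (nth (idx (dc (ν + Finsupp.single k' (2 * (e + 1) - d t))).1)) else 0) *
              (if idx (dc (ν + Finsupp.single k' (2 * (e + 1) - d t))).2 < m0 then
                mnm x (nth (idx (dc (ν + Finsupp.single k' (2 * (e + 1) - d t))).2)) else 0)) =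
            (φ ((G t).coeff ν) * ∏ i, x i ^ ν i) * x k' ^ (2 * (e + 1) - d t) := by
          intro ν hν
          obtain ⟨h2, h3, h4⟩ := hdc _ (hdeg t t.2 ν hν k')
          rw [hz _ h3, hz _ h4, ← mnm_add, h2, mnm_add, mnm_single]
          unfold mnm
          ring
        rw [Finset.sum_congr rfl h1, ← Finset.sum_mul, ← MvPolynomial.eval₂_eq', hxG t t.2,
          zero_mul]
      · rw [v3]
        rw [if_neg (lt_irrefl _), mul_zero]
  · -- zeros of the quadratic forms
    rintro ⟨z, ⟨a, ha, hza⟩, hzero⟩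
    have hm : z m0 = 0 := by
      have h := hzero (Sum.inr (Sum.inr ()))
      rw [v3] at h
      exact mul_self_eq_zero.1 h
    have ha0 : a < m0 := by
      rcases Nat.lt_succ_iff_lt_or_eq.1 ha with h | h
      · exact h
      · rw [h] at hza
        exact absurd hm hza
    obtain ⟨k, c, x, hc, hxk, hx⟩ := veronese (Y := fun α => z (idx α)) (e := e)
      ⟨nth a, (hnth a ha0).1, by
        show z (idx (nth a)) ≠ 0
        rw [(hnth a ha0).2]
        exact hza⟩
      (by
        intro γ δ hγ hδ i j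
        have h := hzero (Sum.inl (⟨γ, mem_Av.2 hγ⟩, ⟨δ, mem_Av.2 hδ⟩, i, j))
        rw [v1] at h
        exact sub_eq_zero.1 h)
    refine ⟨x, fun h => ?_, fun t ht => ?_⟩
    · rw [h] at hxk
      exact zero_ne_one hxk
    · have h := hzero (Sum.inr (Sum.inl (⟨t, ht⟩, k)))
      rw [v2] at h
      have h1 : ∀ ν ∈ (G t).support, φ ((G t).coeff ν) *
          (z (idx (dc (ν + Finsupp.single k (2 * (e + 1) - d t))).1) *
            z (idx (dc (ν + Finsupp.single k (2 * (e + 1) - d t))).2)) =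
          (c * c) * (φ ((G t).coeff ν) * ∏ i, x i ^ ν i) := by
        intro ν hν
        obtain ⟨h2, h3, h4⟩ := hdc _ (hdeg t ht ν hν k)
        have h5 := hx _ h3
        have h6 := hx _ h4
        have h7 : mnm x (dc (ν + Finsupp.single k (2 * (e + 1) - d t))).1 *
            mnm x (dc (ν + Finsupp.single k (2 * (e + 1) - d t))).2 = mnm x ν := by
          rw [← mnm_add, h2, mnm_add, mnm_single, hxk, one_pow, mul_one]
        rw [h5, h6]
        have h8 : mnm x ν = ∏ i, x i ^ ν i := rfl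
        rw [← h8, ← h7]
        ring
      rw [Finset.sum_congr rfl h1, ← Finset.mul_sum, ← MvPolynomial.eval₂_eq'] at h
      exact (mul_eq_zero.1 h).resolve_left (mul_ne_zero hc hc)

end Pool.Agent.H901.Q2
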